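import Pool.Agent.X88.EW.Mid

/-! The large range: decay of the product. -/

set_option autoImplicit false

namespace Pool.Agent.X88.EW

open MeasureTheory Set Filter Topology ComplexConjugate

variable {ν : Measure ℝ} [IsProbabilityMeasure ν]

theorem modsq (s : ℝ) : ‖charFun ν s‖ ^ 2 = ∫ p : ℝ × ℝ, Real.cos (s * (p.1 - p.2)) ∂(ν.prod ν) := by
  have h1 : charFun ν s * charFun ν (-s) =
      ∫ p : ℝ × ℝ, Complex.exp (s * p.1 * Complex.I) * Complex.exp ((-s : ℝ) * p.2 * Complex.I) ∂(ν.prod ν) := by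
    rw [charFun_apply_real, charFun_apply_real]
    exact (integral_prod_mul (fun x : ℝ => Complex.exp (s * x * Complex.I))
      (fun x : ℝ => Complex.exp ((-s : ℝ) * x * Complex.I))).symm
  rw [charFun_neg, Complex.mul_conj, Complex.normSq_eq_norm_sq] at h1
  have h2 := congrArg Complex.re h1
  rw [Complex.ofReal_re] at h2
  rw [h2]
  have hi : Integrable (fun p : ℝ × ℝ => Complex.exp (s * p.1 * Complex.I) *
      Complex.exp ((-s : ℝ) * p.2 * Complex.I)) (ν.prod ν) := by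
    refine (integrable_const (1:ℝ)).mono' (by fun_prop : Continuous fun p : ℝ × ℝ =>
      Complex.exp (s * p.1 * Complex.I) * Complex.exp ((-s : ℝ) * p.2 * Complex.I)).aestronglyMeasurable
      (Eventually.of_forall fun p => ?_)
    have a1 := Complex.norm_exp_ofReal_mul_I (s * p.1)
    have a2 := Complex.norm_exp_ofReal_mul_I (-s * p.2)
    push_cast at a1 a2
    rw [norm_mul]
    push_cast
    rw [a1, a2, mul_one]
  have h3 := integral_re hi
  simp only [RCLike.re_to_complex] at h3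
  rw [← h3]
  apply integral_congr_ae
  refine Eventually.of_forall fun p => ?_
  show (Complex.exp (s * p.1 * Complex.I) * Complex.exp ((-s : ℝ) * p.2 * Complex.I)).re = _
  rw [← Complex.exp_add]
  have e : (s : ℂ) * p.1 * Complex.I + ((-s : ℝ) : ℂ) * p.2 * Complex.I =
      ((s * (p.1 - p.2) : ℝ) : ℂ) * Complex.I := by
    push_cast
    ring
  rw [e, Complex.exp_ofReal_mul_I_re]

theorem cos_sub (A B : ℝ) : 1 - Real.cos (A - B) ≤ 2 * (1 - Real.cos A) + 2 * (1 - Real.cos B) := by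
  rw [Real.cos_sub]
  nlinarith [sq_nonneg (Real.sin A + Real.sin B), sq_nonneg (Real.cos A + Real.cos B - 2),
    Real.sin_sq_add_cos_sq A, Real.sin_sq_add_cos_sq B]

theorem gap_sub (u v : ℝ) : 1 - ‖charFun ν (u - v)‖ ^ 2 ≤
    2 * (1 - ‖charFun ν u‖ ^ 2) + 2 * (1 - ‖charFun ν v‖ ^ 2) := by
  have hi : ∀ s : ℝ, Integrable (fun p : ℝ × ℝ => Real.cos (s * (p.1 - p.2))) (ν.prod ν) := by
    intro s
    refine (integrable_const (1:ℝ)).mono' (by fun_prop : Continuous fun p : ℝ × ℝ =>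
      Real.cos (s * (p.1 - p.2))).aestronglyMeasurable (Eventually.of_forall fun p => ?_)
    rw [Real.norm_eq_abs]
    exact Real.abs_cos_le_one _
  have e : ∀ s : ℝ, 1 - ‖charFun ν s‖ ^ 2 = ∫ p : ℝ × ℝ, (1 - Real.cos (s * (p.1 - p.2))) ∂(ν.prod ν) := by
    intro s
    rw [integral_sub (integrable_const 1) (hi s), modsq]
    simp
  rw [e, e, e, ← integral_const_mul, ← integral_const_mul, ← integral_add]
  · apply integral_mono
    · exact (integrable_const 1).sub (hi _)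
    · exact (((integrable_const 1).sub (hi _)).const_mul 2).add (((integrable_const 1).sub (hi _)).const_mul 2)
    · intro p
      show 1 - Real.cos ((u - v) * (p.1 - p.2)) ≤ 2 * (1 - Real.cos (u * (p.1 - p.2))) +
        2 * (1 - Real.cos (v * (p.1 - p.2)))
      have := cos_sub (u * (p.1 - p.2)) (v * (p.1 - p.2))
      have e2 : (u - v) * (p.1 - p.2) = u * (p.1 - p.2) - v * (p.1 - p.2) := by ring
      rw [e2]
      exact this
  · exact ((integrable_const 1).sub (hi _)).const_mul 2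
  · exact ((integrable_const 1).sub (hi _)).const_mul 2

theorem gap_nonneg (s : ℝ) : 0 ≤ 1 - ‖charFun ν s‖ ^ 2 := by
  have := norm_charFun_le_one (μ := ν) s
  have h0 := norm_nonneg (charFun ν s)
  nlinarith

theorem prod_small {ι : Type*} (S : Finset ι) (θ : ι → ℝ) (t : ℝ) :
    ‖∏ i ∈ S, charFun ν (θ i * t)‖ ^ 2 ≤ Real.exp (-∑ i ∈ S, (1 - ‖charFun ν (θ i * t)‖ ^ 2)) := by
  rw [norm_prod, ← Finset.prod_pow, ← Finset.sum_neg_distrib, Real.exp_sum]
  apply Finset.prod_le_prod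
  · intro i _
    positivity
  · intro i _
    have := Real.add_one_le_exp (-(1 - ‖charFun ν (θ i * t)‖ ^ 2))
    linarith

/-- the block hypothesis -/
def Block (S : Finset ℕ) (θ : ℕ → ℝ) (n c1 c2 η : ℝ) : Prop :=
  ∃ p r : ℕ, η * n ^ 2 ≤ (r : ℝ) - p ∧ ∀ l : ℕ, (l : ℝ) ≤ η * n ^ 2 → ∀ k ∈ Finset.Ico p r,
    k ∈ S ∧ k + l ∈ S ∧ c1 * l / n ^ 3 ≤ |θ (k + l) - θ k| ∧ |θ (k + l) - θ k| ≤ c2 * l / n ^ 3

theorem large (h : Adm ν) (b : ℝ) (hb : 0 < b) (hb3 : b ^ 3 = ∫ x, |x| ^ 5 ∂ν)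
    (S : Finset ℕ) (θ : ℕ → ℝ) (n c1 c2 η t : ℝ) (hbn : b ≤ n) (hc1 : 0 < c1) (hc2 : 0 < c2)
    (hη : 0 < η) (hB : Block S θ n c1 c2 η) (ht1 : n / (8 * b * c2 * η) ≤ t)
    (ht2 : t ≤ (n / b) ^ 3 / (8 * c2)) :
    ‖∏ i ∈ S, charFun ν (θ i * t)‖ ≤ Real.exp (-(η * c1 ^ 2 / (4096 * c2 ^ 2)) * (n / b) ^ 2) := by
  have hb1 := b_one h b hb hb3
  have hn0 : 0 < n := by linarith
  have ht0 : 0 < t := lt_of_lt_of_le (by positivity) ht1
  obtain ⟨p, r, hpr, hbl⟩ := hB
  set X : ℝ := n ^ 3 / (8 * b * c2 * t) with hX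
  have hX1 : 1 ≤ X := by
    rw [hX, le_div_iff₀ (by positivity), one_mul]
    rw [le_div_iff₀ (by positivity), div_pow, le_div_iff₀ (by positivity)] at ht2
    have h3 : b * 1 ≤ b ^ 3 := by nlinarith [sq_nonneg b]
    calc 8 * b * c2 * t = t * (8 * c2) * (b * 1) := by ring
      _ ≤ t * (8 * c2) * b ^ 3 := by gcongr
      _ ≤ n ^ 3 := ht2
  have hX2 : X ≤ η * n ^ 2 := by
    rw [hX, div_le_iff₀ (by positivity)]
    rw [div_le_iff₀ (by positivity)] at ht1
    calc n ^ 3 = n * n ^ 2 := by ring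
      _ ≤ t * (8 * b * c2 * η) * n ^ 2 := by gcongr
      _ = _ := by ring
  set l := ⌊X⌋₊ with hl
  have hl1 : (l : ℝ) ≤ X := Nat.floor_le (by linarith)
  have hl2 : X / 2 ≤ l := by
    have h1 : X < l + 1 := Nat.lt_floor_add_one X
    have h2 : 1 ≤ l := Nat.one_le_floor_iff X |>.mpr hX1
    have h3 : (1:ℝ) ≤ l := by exact_mod_cast h2
    linarith
  have hbl2 := hbl l (hl1.trans hX2)
  set G : ℕ → ℝ := fun i => 1 - ‖charFun ν (θ i * t)‖ ^ 2 with hG
  have hG0 : ∀ i, 0 ≤ G i := fun i => gap_nonneg _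
  set v : ℝ := c1 / (16 * b * c2) with hv
  have hv0 : 0 < v := by positivity
  have key : ∀ k ∈ Finset.Ico p r, v ^ 2 / 2 ≤ 2 * G (k + l) + 2 * G k := by
    intro k hk
    obtain ⟨-, -, h3, h4⟩ := hbl2 k hk
    have e1 := gap_sub (ν := ν) (θ (k + l) * t) (θ k * t)
    have e2 : θ (k + l) * t - θ k * t = (θ (k + l) - θ k) * t := by ring
    rw [e2] at e1
    have e3 : |(θ (k + l) - θ k) * t| = |θ (k + l) - θ k| * t := by rw [abs_mul, abs_of_pos ht0]
    have e4 : b * |(θ (k + l) - θ k) * t| ≤ 1 / 8 := by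
      rw [e3]
      calc b * (|θ (k + l) - θ k| * t) ≤ b * (c2 * l / n ^ 3 * t) := by gcongr
        _ ≤ b * (c2 * X / n ^ 3 * t) := by gcongr
        _ = 1 / 8 := by
          rw [hX]
          field_simp
    have e5 := phi_gap h b hb hb3 _ e4
    have e6 : v ≤ |(θ (k + l) - θ k) * t| := by
      rw [e3]
      calc v = c1 * (X / 2) / n ^ 3 * t := by
            rw [hX, hv]
            field_simp
            norm_num
        _ ≤ c1 * l / n ^ 3 * t := by gcongr
        _ ≤ |θ (k + l) - θ k| * t := by gcongr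
    have e7 : v ^ 2 ≤ ((θ (k + l) - θ k) * t) ^ 2 := by
      rw [← sq_abs ((θ (k + l) - θ k) * t)]
      exact pow_le_pow_left₀ hv0.le e6 2
    linarith
  have sum1 : ((r : ℝ) - p) * (v ^ 2 / 2) ≤ ∑ k ∈ Finset.Ico p r, (2 * G (k + l) + 2 * G k) := by
    have h1 := Finset.card_nsmul_le_sum (Finset.Ico p r) _ _ key
    rw [Nat.card_Ico, nsmul_eq_mul] at h1
    refine le_trans ?_ h1
    apply mul_le_mul_of_nonneg_right _ (by positivity)
    have : (r : ℝ) ≤ ((r - p : ℕ) : ℝ) + p := by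
      have := Nat.le_sub_iff_add_le (n := r) (m := p) (k := r - p)
      have h2 : r ≤ r - p + p := by omega
      exact_mod_cast h2
    linarith
  have sum2 : ∑ k ∈ Finset.Ico p r, G k ≤ ∑ i ∈ S, G i := by
    apply Finset.sum_le_sum_of_subset_of_nonneg
    · intro k hk
      exact (hbl2 k hk).1
    · intro i _ _
      exact hG0 i
  have sum3 : ∑ k ∈ Finset.Ico p r, G (k + l) ≤ ∑ i ∈ S, G i := by
    rw [← Finset.sum_image (f := G) (g := fun k => k + l) (by
      intro x _ y _ hxy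
      simpa using hxy)]
    apply Finset.sum_le_sum_of_subset_of_nonneg
    · intro i hi
      rw [Finset.mem_image] at hi
      obtain ⟨k, hk, rfl⟩ := hi
      exact (hbl2 k hk).2.1
    · intro i _ _
      exact hG0 i
  have sum4 : η * n ^ 2 * (v ^ 2 / 2) ≤ 4 * ∑ i ∈ S, G i := by
    rw [Finset.sum_add_distrib, ← Finset.mul_sum, ← Finset.mul_sum] at sum1
    have : η * n ^ 2 * (v ^ 2 / 2) ≤ ((r : ℝ) - p) * (v ^ 2 / 2) := by gcongr
    linarith
  have h9 := prod_small (ν := ν) S θ t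
  have h10 : 2 * (η * c1 ^ 2 / (4096 * c2 ^ 2) * (n / b) ^ 2) ≤ ∑ i ∈ S, G i := by
    have e : η * n ^ 2 * (v ^ 2 / 2) = 4 * (2 * (η * c1 ^ 2 / (4096 * c2 ^ 2) * (n / b) ^ 2)) := by
      rw [hv]
      field_simp
      norm_num
    linarith
  have h11 : ‖∏ i ∈ S, charFun ν (θ i * t)‖ ^ 2 ≤
      (Real.exp (-(η * c1 ^ 2 / (4096 * c2 ^ 2)) * (n / b) ^ 2)) ^ 2 := by
    refine h9.trans ?_
    rw [← Real.exp_nat_mul]
    apply Real.exp_le_exp.mpr
    push_cast
    have : -∑ i ∈ S, (1 - ‖charFun ν (θ i * t)‖ ^ 2) = -∑ i ∈ S, G i := rfl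
    rw [this]
    linarith
  exact le_of_sq_le_sq h11 (Real.exp_pos _).le

end Pool.Agent.X88.EW
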