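import Mathlib

/-! One variable: moments and characteristic function. -/

set_option autoImplicit false

namespace Pool.Agent.X88.EW

open MeasureTheory Set Filter Topology

/-- the moment conditions on a law -/
structure Adm (ν : Measure ℝ) : Prop where
  i5 : Integrable (fun x => |x| ^ 5) ν
  m1 : ∫ x, x ∂ν = 0
  m2 : ∫ x, x ^ 2 ∂ν = 1
  m3 : ∫ x, x ^ 3 ∂ν = 0

variable {ν : Measure ℝ} [IsProbabilityMeasure ν]

theorem int_pow (h : Adm ν) (k : ℕ) (hk : k ≤ 5) : Integrable (fun x => x ^ k) ν := by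
  refine Integrable.mono' ((integrable_const (1:ℝ)).add h.i5)
    (by fun_prop : Continuous fun x : ℝ => x ^ k).aestronglyMeasurable (Eventually.of_forall fun x => ?_)
  rw [norm_pow, Real.norm_eq_abs, Pi.add_apply]
  rcases le_or_gt |x| 1 with h1 | h1
  · have := pow_le_one₀ (n := k) (abs_nonneg x) h1
    have h2 : 0 ≤ |x| ^ 5 := by positivity
    linarith
  · have := pow_le_pow_right₀ h1.le hk
    linarith

theorem m4_ge (h : Adm ν) : 1 ≤ ∫ x, x ^ 4 ∂ν := by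
  have h1 : ∫ x, (2 * x ^ 2 - 1) ∂ν ≤ ∫ x, x ^ 4 ∂ν := by
    apply integral_mono (((int_pow h 2 (by norm_num)).const_mul 2).sub (integrable_const 1))
      (int_pow h 4 (by norm_num))
    intro x
    show 2 * x ^ 2 - 1 ≤ x ^ 4
    nlinarith [sq_nonneg (x ^ 2 - 1)]
  rw [integral_sub ((int_pow h 2 (by norm_num)).const_mul 2) (integrable_const 1),
    integral_const_mul, h.m2] at h1
  simp at h1
  linarith

theorem b_ge (h : Adm ν) : 1 ≤ ∫ x, |x| ^ 5 ∂ν := by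
  have h1 : ∫ x, (5 / 2 * x ^ 2 - 3 / 2) ∂ν ≤ ∫ x, |x| ^ 5 ∂ν := by
    apply integral_mono (((int_pow h 2 (by norm_num)).const_mul (5 / 2)).sub (integrable_const (3 / 2)))
      h.i5
    intro x
    show 5 / 2 * x ^ 2 - 3 / 2 ≤ |x| ^ 5
    rw [← sq_abs x]
    have hx := abs_nonneg x
    have e : |x| ^ 5 - (5 / 2 * |x| ^ 2 - 3 / 2) = (|x| - 1) ^ 2 * (|x| ^ 3 + 2 * |x| ^ 2 + 3 * |x| + 3 / 2) := by ring
    have : 0 ≤ (|x| - 1) ^ 2 * (|x| ^ 3 + 2 * |x| ^ 2 + 3 * |x| + 3 / 2) := by positivity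
    linarith
  rw [integral_sub ((int_pow h 2 (by norm_num)).const_mul (5 / 2)) (integrable_const (3 / 2)),
    integral_const_mul, h.m2] at h1
  simp at h1
  linarith

theorem m4_le (h : Adm ν) (b : ℝ) (hb : 0 < b) (hb3 : b ^ 3 = ∫ x, |x| ^ 5 ∂ν) :
    ∫ x, x ^ 4 ∂ν ≤ b ^ 2 := by
  have h1 : ∫ x, x ^ 4 ∂ν ≤ ∫ x, (b ^ 2 / 3 * x ^ 2 + 2 / (3 * b) * |x| ^ 5) ∂ν := by
    apply integral_mono (int_pow h 4 (by norm_num))
      (((int_pow h 2 (by norm_num)).const_mul _).add (h.i5.const_mul _))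
    intro x
    show x ^ 4 ≤ b ^ 2 / 3 * x ^ 2 + 2 / (3 * b) * |x| ^ 5
    rw [(by ring : x ^ 4 = (x ^ 2) ^ 2), ← sq_abs x]
    have hx := abs_nonneg x
    have e : b ^ 2 / 3 * |x| ^ 2 + 2 / (3 * b) * |x| ^ 5 - (|x| ^ 2) ^ 2 =
        |x| ^ 2 * ((|x| - b) ^ 2 * (2 * |x| + b)) / (3 * b) := by
      field_simp
      ring
    have : 0 ≤ |x| ^ 2 * ((|x| - b) ^ 2 * (2 * |x| + b)) / (3 * b) := by positivity
    linarith
  rw [integral_add ((int_pow h 2 (by norm_num)).const_mul _) (h.i5.const_mul _),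
    integral_const_mul, integral_const_mul, h.m2, ← hb3] at h1
  have e : b ^ 2 / 3 * 1 + 2 / (3 * b) * b ^ 3 = b ^ 2 := by
    field_simp
    ring
  linarith

theorem taylor5 (x : ℝ) :
    ‖Complex.exp (x * Complex.I) - (((1 - x ^ 2 / 2 + x ^ 4 / 24 : ℝ) : ℂ) +
      ((x - x ^ 3 / 6 : ℝ) : ℂ) * Complex.I)‖ ≤ 4 * |x| ^ 5 := by
  have hI2 : Complex.I ^ 2 = -1 := Complex.I_sq
  have hI3 : Complex.I ^ 3 = -Complex.I := by rw [pow_succ, hI2]; ring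
  have hI4 : Complex.I ^ 4 = 1 := by
    rw [(by norm_num : 4 = 2 * 2), pow_mul, hI2]; norm_num
  rcases le_or_gt |x| 1 with h1 | h1
  · have h := Complex.norm_exp_sub_sum_le_norm_mul_exp (x * Complex.I) 5
    have e1 : ‖(x : ℂ) * Complex.I‖ = |x| := by
      rw [norm_mul, Complex.norm_I, mul_one, Complex.norm_real, Real.norm_eq_abs]
    rw [e1] at h
    have e2 : ∑ m ∈ Finset.range 5, ((x : ℂ) * Complex.I) ^ m / (m.factorial : ℂ) =
        ((1 - x ^ 2 / 2 + x ^ 4 / 24 : ℝ) : ℂ) + ((x - x ^ 3 / 6 : ℝ) : ℂ) * Complex.I := by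
      simp only [Finset.sum_range_succ, Finset.sum_range_zero, mul_pow, hI2, hI3, hI4, Nat.factorial]
      push_cast
      ring
    rw [e2] at h
    refine h.trans ?_
    have h3 : Real.exp |x| ≤ 4 := by
      have := Real.exp_one_lt_d9
      have h4 := Real.exp_le_exp.mpr h1
      linarith
    nlinarith [pow_nonneg (abs_nonneg x) 5]
  · have e1 : ‖Complex.exp (x * Complex.I)‖ = 1 := Complex.norm_exp_ofReal_mul_I x
    have e2 : ‖((1 - x ^ 2 / 2 + x ^ 4 / 24 : ℝ) : ℂ) + ((x - x ^ 3 / 6 : ℝ) : ℂ) * Complex.I‖ ≤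
        1 + |x| + |x| ^ 2 / 2 + |x| ^ 3 / 6 + |x| ^ 4 / 24 := by
      refine (norm_add_le _ _).trans ?_
      rw [norm_mul, Complex.norm_I, mul_one, Complex.norm_real, Complex.norm_real,
        Real.norm_eq_abs, Real.norm_eq_abs]
      have a1 : |1 - x ^ 2 / 2 + x ^ 4 / 24| ≤ 1 + |x| ^ 2 / 2 + |x| ^ 4 / 24 := by
        rw [sq_abs, (by rw [(by norm_num : 4 = 2 * 2), pow_mul, pow_mul, sq_abs] : |x| ^ 4 = x ^ 4)]
        rw [abs_le]
        constructor <;> nlinarith [sq_nonneg x, sq_nonneg (x ^ 2)]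
      have a2 : |x - x ^ 3 / 6| ≤ |x| + |x| ^ 3 / 6 := by
        refine (abs_sub _ _).trans ?_
        rw [abs_div, abs_pow]
        norm_num
      linarith
    refine (norm_sub_le _ _).trans ?_
    rw [e1]
    have p2 : 1 ≤ |x| ^ 5 := one_le_pow₀ h1.le
    have q1 : |x| ≤ |x| ^ 5 := le_self_pow₀ h1.le (by norm_num)
    have q2 : |x| ^ 2 ≤ |x| ^ 5 := pow_le_pow_right₀ h1.le (by norm_num)
    have q3 : |x| ^ 3 ≤ |x| ^ 5 := pow_le_pow_right₀ h1.le (by norm_num)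
    have q4 : |x| ^ 4 ≤ |x| ^ 5 := pow_le_pow_right₀ h1.le (by norm_num)
    linarith

theorem phi_approx (h : Adm ν) (s : ℝ) :
    ‖charFun ν s - ((1 - s ^ 2 / 2 + (∫ x, x ^ 4 ∂ν) * s ^ 4 / 24 : ℝ) : ℂ)‖ ≤
      4 * (∫ x, |x| ^ 5 ∂ν) * |s| ^ 5 := by
  rw [charFun_apply_real]
  have i2 := int_pow h 2 (by norm_num)
  have i4 := int_pow h 4 (by norm_num)
  have i3 := int_pow h 3 (by norm_num)
  have i1 : Integrable (fun x : ℝ => x) ν := by simpa using int_pow h 1 (by norm_num)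
  have r1 : ∫ x, (1 - (s * x) ^ 2 / 2 + (s * x) ^ 4 / 24) ∂ν =
      1 - s ^ 2 / 2 + (∫ x, x ^ 4 ∂ν) * s ^ 4 / 24 := by
    have e : ∀ x : ℝ, 1 - (s * x) ^ 2 / 2 + (s * x) ^ 4 / 24 =
        1 - s ^ 2 / 2 * x ^ 2 + s ^ 4 / 24 * x ^ 4 := fun x => by ring
    simp_rw [e]
    have k1 : Integrable (fun x : ℝ => 1 - s ^ 2 / 2 * x ^ 2) ν := (integrable_const 1).sub (i2.const_mul _)
    rw [integral_add k1 (i4.const_mul _),
      integral_sub (integrable_const 1) (i2.const_mul _), integral_const_mul, integral_const_mul, h.m2]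
    simp
    ring
  have r2 : ∫ x, (s * x - (s * x) ^ 3 / 6) ∂ν = 0 := by
    have e : ∀ x : ℝ, s * x - (s * x) ^ 3 / 6 = s * x - s ^ 3 / 6 * x ^ 3 := fun x => by ring
    simp_rw [e]
    rw [integral_sub (i1.const_mul _) (i3.const_mul _), integral_const_mul, integral_const_mul,
      h.m1, h.m3]
    ring
  have j1 : Integrable (fun x : ℝ => 1 - (s * x) ^ 2 / 2 + (s * x) ^ 4 / 24) ν := by
    have e : (fun x : ℝ => 1 - (s * x) ^ 2 / 2 + (s * x) ^ 4 / 24) =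
        fun x => 1 - s ^ 2 / 2 * x ^ 2 + s ^ 4 / 24 * x ^ 4 := by ext x; ring
    rw [e]
    exact ((integrable_const 1).sub (i2.const_mul _)).add (i4.const_mul _)
  have j2 : Integrable (fun x : ℝ => s * x - (s * x) ^ 3 / 6) ν := by
    have e : (fun x : ℝ => s * x - (s * x) ^ 3 / 6) = fun x => s * x - s ^ 3 / 6 * x ^ 3 := by ext x; ring
    rw [e]
    exact (i1.const_mul _).sub (i3.const_mul _)
  have j3 : Integrable (fun x : ℝ => Complex.exp (s * x * Complex.I)) ν := by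
    refine (integrable_const (1:ℝ)).mono' (by fun_prop : Continuous fun x : ℝ =>
      Complex.exp (s * x * Complex.I)).aestronglyMeasurable (Eventually.of_forall fun x => ?_)
    have := Complex.norm_exp_ofReal_mul_I (s * x)
    push_cast at this
    rw [this]
  have e3 : ((1 - s ^ 2 / 2 + (∫ x, x ^ 4 ∂ν) * s ^ 4 / 24 : ℝ) : ℂ) =
      ∫ x : ℝ, (((1 - (s * x) ^ 2 / 2 + (s * x) ^ 4 / 24 : ℝ) : ℂ) +
        ((s * x - (s * x) ^ 3 / 6 : ℝ) : ℂ) * Complex.I) ∂ν := by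
    have w1 : ∫ x, ((1 - (s * x) ^ 2 / 2 + (s * x) ^ 4 / 24 : ℝ) : ℂ) ∂ν =
        ((∫ x, (1 - (s * x) ^ 2 / 2 + (s * x) ^ 4 / 24) ∂ν : ℝ) : ℂ) := integral_ofReal
    have w2 : ∫ x, ((s * x - (s * x) ^ 3 / 6 : ℝ) : ℂ) ∂ν =
        ((∫ x, (s * x - (s * x) ^ 3 / 6) ∂ν : ℝ) : ℂ) := integral_ofReal
    rw [integral_add j1.ofReal (j2.ofReal.mul_const _), integral_mul_const, w1, w2, r1, r2]
    simp
  have j12 : Integrable (fun x : ℝ => (((1 - (s * x) ^ 2 / 2 + (s * x) ^ 4 / 24 : ℝ) : ℂ) +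
        ((s * x - (s * x) ^ 3 / 6 : ℝ) : ℂ) * Complex.I)) ν := j1.ofReal.add (j2.ofReal.mul_const _)
  rw [e3, ← integral_sub j3 j12]
  have hb : ∫ x, 4 * |s| ^ 5 * |x| ^ 5 ∂ν = 4 * (∫ x, |x| ^ 5 ∂ν) * |s| ^ 5 := by
    rw [integral_const_mul]; ring
  rw [← hb]
  refine norm_integral_le_of_norm_le (h.i5.const_mul _) (Eventually.of_forall fun x => ?_)
  have := taylor5 (s * x)
  rw [abs_mul] at this
  have e : ((s * x : ℝ) : ℂ) = (s : ℂ) * x := by push_cast; ring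
  rw [e] at this
  calc _ ≤ 4 * (|s| * |x|) ^ 5 := this
    _ = 4 * |s| ^ 5 * |x| ^ 5 := by ring

/-- the modulus of the characteristic function -/
theorem phi_le (h : Adm ν) (b : ℝ) (hb : 0 < b) (hb3 : b ^ 3 = ∫ x, |x| ^ 5 ∂ν) (s : ℝ)
    (hs : b * |s| ≤ 1 / 8) : ‖charFun ν s‖ ≤ 1 - 12 / 25 * s ^ 2 := by
  have h1 := phi_approx h s
  have h2 := m4_le h b hb hb3
  have h3 := m4_ge h
  have h4 := b_ge h
  rw [← hb3] at h1 h4
  have hb1 : 1 ≤ b := by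
    by_contra hc
    push Not at hc
    have : b ^ 3 < 1 := pow_lt_one₀ hb.le hc (by norm_num)
    linarith
  set m := ∫ x, x ^ 4 ∂ν with hm
  have hs0 := abs_nonneg s
  have hs1 : |s| ≤ 1 / 8 := by nlinarith
  have hsq : s ^ 2 = |s| ^ 2 := (sq_abs s).symm
  have a1 : 4 * b ^ 3 * |s| ^ 5 ≤ s ^ 2 / 128 := by
    have : 4 * b ^ 3 * |s| ^ 5 = 4 * (b * |s|) ^ 3 * |s| ^ 2 := by ring
    rw [this, hsq]
    have h5 : (b * |s|) ^ 3 ≤ (1 / 8) ^ 3 := pow_le_pow_left₀ (by positivity) hs 3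
    nlinarith [sq_nonneg |s|]
  have a2 : m * s ^ 4 / 24 ≤ s ^ 2 / 1536 := by
    have h5 : (b * |s|) ^ 2 ≤ (1 / 8) ^ 2 := pow_le_pow_left₀ (by positivity) hs 2
    have h6 : m * s ^ 4 ≤ b ^ 2 * s ^ 4 := by
      apply mul_le_mul_of_nonneg_right h2; positivity
    have h7 : b ^ 2 * s ^ 4 = (b * |s|) ^ 2 * s ^ 2 := by rw [mul_pow, sq_abs]; ring
    nlinarith [sq_nonneg s]
  have a3 : 0 ≤ m * s ^ 4 / 24 := by positivity
  have a4 : s ^ 2 ≤ 1 / 64 := by rw [hsq]; nlinarith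
  have h5 : ‖((1 - s ^ 2 / 2 + m * s ^ 4 / 24 : ℝ) : ℂ)‖ = 1 - s ^ 2 / 2 + m * s ^ 4 / 24 := by
    rw [Complex.norm_real, Real.norm_eq_abs, abs_of_nonneg (by linarith)]
  have h6 : ‖charFun ν s‖ ≤ ‖charFun ν s - ((1 - s ^ 2 / 2 + m * s ^ 4 / 24 : ℝ) : ℂ)‖ +
      ‖((1 - s ^ 2 / 2 + m * s ^ 4 / 24 : ℝ) : ℂ)‖ := by
    have := norm_add_le (charFun ν s - ((1 - s ^ 2 / 2 + m * s ^ 4 / 24 : ℝ) : ℂ))
      ((1 - s ^ 2 / 2 + m * s ^ 4 / 24 : ℝ) : ℂ)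
    rwa [sub_add_cancel] at this
  rw [h5] at h6
  nlinarith

theorem phi_exp (h : Adm ν) (b : ℝ) (hb : 0 < b) (hb3 : b ^ 3 = ∫ x, |x| ^ 5 ∂ν) (s : ℝ)
    (hs : b * |s| ≤ 1 / 8) : ‖charFun ν s‖ ≤ Real.exp (-(s ^ 2 / 3)) := by
  have h1 := phi_le h b hb hb3 s hs
  have h2 := Real.add_one_le_exp (-(s ^ 2 / 3))
  nlinarith [sq_nonneg s]

theorem phi_gap (h : Adm ν) (b : ℝ) (hb : 0 < b) (hb3 : b ^ 3 = ∫ x, |x| ^ 5 ∂ν) (s : ℝ)
    (hs : b * |s| ≤ 1 / 8) : s ^ 2 / 2 ≤ 1 - ‖charFun ν s‖ ^ 2 := by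
  have h1 := phi_le h b hb hb3 s hs
  have h4 := b_ge h
  have hb1 : 1 ≤ b := by
    by_contra hc
    push Not at hc
    have : b ^ 3 < 1 := pow_lt_one₀ hb.le hc (by norm_num)
    linarith
  have hs1 : |s| ≤ 1 / 8 := by nlinarith [abs_nonneg s]
  have a4 : s ^ 2 ≤ 1 / 64 := by rw [← sq_abs s]; nlinarith [abs_nonneg s]
  have h0 := norm_nonneg (charFun ν s)
  have h2 : ‖charFun ν s‖ ^ 2 ≤ (1 - 12 / 25 * s ^ 2) ^ 2 := pow_le_pow_left₀ h0 h1 2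
  nlinarith [sq_nonneg s]

end Pool.Agent.X88.EW
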