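import Pool.Agent.X88.EW.Ker

/-! The convolution of the difference of two laws with the Fejer kernel. -/

set_option autoImplicit false

namespace Pool.Agent.X88.EW

open MeasureTheory Set

theorem swapA (ρ ν : Measure ℝ) [SFinite ρ] [SFinite ν] (g h : ℝ → ℝ) (hg : Integrable g ρ)
    (hh : Integrable h ν) (F : ℝ → ℝ → ℝ) (hF : Continuous (fun p : ℝ × ℝ => F p.1 p.2)) (C : ℝ)
    (hC : ∀ s y, |F s y| ≤ C) :
    ∫ y, g y * (∫ s, h s * F s y ∂ν) ∂ρ = ∫ s, h s * (∫ y, g y * F s y ∂ρ) ∂ν := by
  have e1 : ∀ y, g y * (∫ s, h s * F s y ∂ν) = ∫ s, g y * (h s * F s y) ∂ν := fun y => by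
    rw [integral_const_mul]
  have e2 : ∀ s, h s * (∫ y, g y * F s y ∂ρ) = ∫ y, g y * (h s * F s y) ∂ρ := fun s => by
    rw [← integral_const_mul]
    congr 1
    ext y
    ring
  simp_rw [e1, e2]
  apply integral_integral_swap
  have h3 : Integrable (fun p : ℝ × ℝ => g p.1 * h p.2) (ρ.prod ν) := hg.mul_prod hh
  have h4 : Integrable (fun p : ℝ × ℝ => F p.2 p.1 * (g p.1 * h p.2)) (ρ.prod ν) := by
    refine h3.bdd_mul (c := C) ?_ ?_
    · exact (hF.comp (continuous_snd.prodMk continuous_fst)).aestronglyMeasurable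
    · refine Filter.Eventually.of_forall fun p => ?_
      rw [Real.norm_eq_abs]
      exact hC _ _
  refine h4.congr (Filter.Eventually.of_forall fun p => ?_)
  simp only [Function.uncurry]
  ring

theorem osc (q : ℂ) (t a b : ℝ) (ht : 0 < t) (hab : a ≤ b) :
    |∫ x in Ioc a b, (Complex.exp (-(t * x * Complex.I)) * q).re| ≤ 2 * ‖q‖ / t := by
  have h1 : ∫ x in Ioc a b, (Complex.exp (-(t * x * Complex.I)) * q).re =
      (∫ x in a..b, Complex.exp (-(t * x * Complex.I)) * q).re := by
    rw [intervalIntegral.integral_of_le hab]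
    have hi : Integrable (fun x : ℝ => Complex.exp (-(t * x * Complex.I)) * q)
        (volume.restrict (Ioc a b)) := by
      have : Continuous fun x : ℝ => Complex.exp (-(t * x * Complex.I)) * q := by fun_prop
      exact (this.continuousOn.integrableOn_compact isCompact_Icc).mono_set Ioc_subset_Icc_self
    exact integral_re hi
  have h2 : ∫ x in a..b, Complex.exp (-(t * x * Complex.I)) * q =
      (Complex.exp (-(t * b * Complex.I)) - Complex.exp (-(t * a * Complex.I))) * q / (-(t * Complex.I)) := by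
    have hne : (-((t : ℂ) * Complex.I)) ≠ 0 := by
      simp [ht.ne', Complex.I_ne_zero]
    have hd : ∀ x ∈ Set.uIcc a b, HasDerivAt
        (fun x : ℝ => Complex.exp (-(t * x * Complex.I)) * q / (-(t * Complex.I)))
        (Complex.exp (-(t * x * Complex.I)) * q) x := by
      intro x _
      have e1 : HasDerivAt (fun x : ℝ => (x : ℂ)) 1 x := by
        simpa using (hasDerivAt_id x).ofReal_comp
      have e2 : HasDerivAt (fun x : ℝ => -((t : ℂ) * x * Complex.I)) (-((t : ℂ) * 1 * Complex.I)) x :=
        ((e1.const_mul (t : ℂ)).mul_const Complex.I).neg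
      have e3 := (e2.cexp.mul_const q).div_const (-((t : ℂ) * Complex.I))
      refine e3.congr_deriv ?_
      rw [mul_one, mul_right_comm, mul_div_assoc, div_self hne, mul_one]
    rw [intervalIntegral.integral_eq_sub_of_hasDerivAt hd
      (Continuous.intervalIntegrable (by fun_prop) _ _)]
    ring
  rw [h1, h2]
  refine (Complex.abs_re_le_norm _).trans ?_
  rw [norm_div, norm_mul, norm_neg, norm_mul, Complex.norm_I, mul_one, Complex.norm_real,
    Real.norm_eq_abs, abs_of_pos ht]
  apply div_le_div_of_nonneg_right _ ht.le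
  apply mul_le_mul_of_nonneg_right _ (norm_nonneg _)
  have e : ∀ x : ℝ, ‖Complex.exp (-(t * x * Complex.I))‖ = 1 := by
    intro x
    have := Complex.norm_exp_ofReal_mul_I (-(t * x))
    rw [← this]
    congr 2
    push_cast
    ring
  calc _ ≤ ‖Complex.exp (-(t * b * Complex.I))‖ + ‖Complex.exp (-(t * a * Complex.I))‖ := norm_sub_le _ _
    _ = 2 := by rw [e, e]; norm_num

/-- the difference on an interval -/
noncomputable def DD (μ : Measure ℝ) (g : ℝ → ℝ) (a b : ℝ) : ℝ :=
  μ.real (Ioc a b) - ∫ y in Ioc a b, g y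

theorem inner1 (ρ : Measure ℝ) [SFinite ρ] (g : ℝ → ℝ) (hg : Integrable g ρ) (T a b : ℝ) :
    ∫ y, g y * (∫ x in Ioc a b, kk (T * (x - y))) ∂ρ =
      ∫ x in Ioc a b, (∫ s in Ioc (0:ℝ) 1, (1 - s) * (∫ y, g y * Real.cos (s * (T * (x - y))) ∂ρ)) := by
  have h1 := swapA ρ (volume.restrict (Ioc a b)) g (fun _ => 1) hg (integrable_const _)
    (fun x y => kk (T * (x - y))) (by
      have := kk_cont
      fun_prop) 1 (fun s y => by
      rw [abs_of_nonneg (kk_nonneg _)]
      exact kk_le _)
  simp only [one_mul] at h1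
  rw [h1]
  congr 1
  ext x
  have h2 := swapA ρ (volume.restrict (Ioc (0:ℝ) 1)) g (fun s => 1 - s) hg (by
      have : Continuous fun s : ℝ => 1 - s := by fun_prop
      exact (this.continuousOn.integrableOn_compact isCompact_Icc).mono_set Ioc_subset_Icc_self)
    (fun s y => Real.cos (s * (T * (x - y)))) (by fun_prop) 1 (fun s y => Real.abs_cos_le_one _)
  rw [← h2]
  congr 1
  ext y
  unfold kk
  rw [intervalIntegral.integral_of_le (by norm_num)]

theorem DD_ints (μ : Measure ℝ) [IsProbabilityMeasure μ] (g : ℝ → ℝ) (hg : Integrable g)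
    (T : ℝ) (hT : 0 < T) (a b : ℝ) (hab : a ≤ b) :
    Integrable (fun z => kk (T * z)) ∧
    Integrable (fun z => (∫ y in Ioc (a - z) (b - z), (1:ℝ) ∂μ) * kk (T * z)) ∧
    Integrable (fun z => (∫ y in Ioc (a - z) (b - z), g y) * kk (T * z)) := by
  have hkT : Integrable (fun z => kk (T * z)) := kk_int.comp_mul_left' hT.ne'
  have hb1 : Integrable (fun _ : ℝ => (1:ℝ)) μ := integrable_const _
  have hm1 : Integrable (fun z => (∫ y in Ioc (a - z) (b - z), (1:ℝ) ∂μ) * kk (T * z)) := by
    refine Integrable.bdd_mul (c := 1) hkT ?_ ?_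
    · have : (fun z => ∫ y in Ioc (a - z) (b - z), (1:ℝ) ∂μ) =
          fun z => ∫ y, (if a < y + z ∧ y + z ≤ b then (1:ℝ) else 0) ∂μ := by
        ext z
        rw [← integral_indicator measurableSet_Ioc]
        congr 1
        ext y
        rw [indicator_apply]
        by_cases h : a < y + z ∧ y + z ≤ b
        · rw [if_pos h, if_pos ⟨by linarith [h.1], by linarith [h.2]⟩]
        · rw [if_neg h, if_neg]
          rintro ⟨h1, h2⟩
          exact h ⟨by linarith, by linarith⟩
      rw [this]
      have hm : Measurable (fun p : ℝ × ℝ => if a < p.2 + p.1 ∧ p.2 + p.1 ≤ b then (1:ℝ) else 0) := by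
        refine Measurable.ite ?_ measurable_const measurable_const
        apply MeasurableSet.inter
        · exact measurableSet_lt measurable_const (measurable_snd.add measurable_fst)
        · exact measurableSet_le (measurable_snd.add measurable_fst) measurable_const
      exact (hm.stronglyMeasurable.integral_prod_right (ν := μ)).aestronglyMeasurable
    · refine Filter.Eventually.of_forall fun z => ?_
      simp only [integral_const, MeasurableSet.univ, measureReal_restrict_apply, univ_inter,
        smul_eq_mul, mul_one, Real.norm_eq_abs]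
      rw [abs_of_nonneg measureReal_nonneg]
      exact measureReal_le_one
  have hm2 : Integrable (fun z => (∫ y in Ioc (a - z) (b - z), g y) * kk (T * z)) := by
    refine Integrable.bdd_mul (c := ∫ y, ‖g y‖) hkT ?_ ?_
    · have h3 : ∀ z, ∫ y in Ioc (a - z) (b - z), g y = (∫ y in Iic (b - z), g y) - ∫ y in Iic (a - z), g y := by
        intro z
        rw [← intervalIntegral.integral_of_le (by linarith),
          intervalIntegral.integral_Iic_sub_Iic hg.integrableOn hg.integrableOn]
      have h4 : Continuous fun x => ∫ y in Iic x, g y := by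
        have h5 : ∀ x, ∫ y in Iic x, g y = (∫ y in Iic (0:ℝ), g y) + ∫ y in (0:ℝ)..x, g y := by
          intro x
          rw [← intervalIntegral.integral_Iic_sub_Iic hg.integrableOn hg.integrableOn]
          ring
        rw [funext h5]
        exact continuous_const.add (intervalIntegral.continuous_primitive
          (fun a b => hg.intervalIntegrable) 0)
      simp_rw [h3]
      exact ((h4.comp (continuous_const.sub continuous_id)).sub
        (h4.comp (continuous_const.sub continuous_id))).aestronglyMeasurable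
    · refine Filter.Eventually.of_forall fun z => ?_
      exact (norm_integral_le_integral_norm _).trans
        (setIntegral_le_integral hg.norm (Filter.Eventually.of_forall fun _ => norm_nonneg _))
  exact ⟨hkT, hm1, hm2⟩

theorem DD_int (μ : Measure ℝ) [IsProbabilityMeasure μ] (g : ℝ → ℝ) (hg : Integrable g)
    (T : ℝ) (hT : 0 < T) (a b : ℝ) (hab : a ≤ b) :
    Integrable (fun z => DD μ g (a - z) (b - z) * (T * kk (T * z))) := by
  obtain ⟨-, hm1, hm2⟩ := DD_ints μ g hg T hT a b hab
  refine ((hm1.sub hm2).const_mul T).congr (Filter.Eventually.of_forall fun z => ?_)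
  simp only [Pi.sub_apply]
  unfold DD
  have : ∫ y in Ioc (a - z) (b - z), (1:ℝ) ∂μ = μ.real (Ioc (a - z) (b - z)) := by simp
  rw [this]
  ring

theorem Jbound (μ : Measure ℝ) [IsProbabilityMeasure μ] (g : ℝ → ℝ) (hg : Integrable g)
    (q : ℝ → ℂ)
    (hq : ∀ t x : ℝ, (∫ y, Real.cos (t * (x - y)) ∂μ) - (∫ y, g y * Real.cos (t * (x - y))) =
      (Complex.exp (-(t * x * Complex.I)) * q t).re)
    (T : ℝ) (hT : 0 < T) (R : ℝ → ℝ) (hR : IntegrableOn R (Ioc 0 1)) (E : ℝ)
    (hE : ∫ s in Ioc (0:ℝ) 1, R s ≤ E) (hqR : ∀ s ∈ Ioc (0:ℝ) 1, ‖q (s * T)‖ ≤ s * R s)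
    (a b : ℝ) (hab : a ≤ b) :
    |∫ z, DD μ g (a - z) (b - z) * (T * kk (T * z))| ≤ 2 * E := by
  obtain ⟨hkT, hm1, hm2⟩ := DD_ints μ g hg T hT a b hab
  have hb1 : Integrable (fun _ : ℝ => (1:ℝ)) μ := integrable_const _
  have e1 := fub1 μ (fun _ => 1) (fun z => kk (T * z)) hb1 hkT a b
  have e2 := fub1 volume g (fun z => kk (T * z)) hg hkT a b
  rw [inner1 μ (fun _ => 1) hb1 T a b] at e1
  rw [inner1 volume g hg T a b] at e2
  have e3 : ∫ z, DD μ g (a - z) (b - z) * (T * kk (T * z)) =
      T * ((∫ z, (∫ y in Ioc (a - z) (b - z), (1:ℝ) ∂μ) * kk (T * z)) -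
        ∫ z, (∫ y in Ioc (a - z) (b - z), g y) * kk (T * z)) := by
    rw [← integral_sub hm1 hm2, ← integral_const_mul]
    congr 1
    ext z
    unfold DD
    have : ∫ y in Ioc (a - z) (b - z), (1:ℝ) ∂μ = μ.real (Ioc (a - z) (b - z)) := by simp
    rw [this]
    ring
  rw [e3, e1, e2]
  -- now combine
  set Q1 : ℝ → ℝ → ℝ := fun s x => ∫ y, 1 * Real.cos (s * (T * (x - y))) ∂μ with hQ1
  set Q2 : ℝ → ℝ → ℝ := fun s x => ∫ y, g y * Real.cos (s * (T * (x - y))) with hQ2
  have hQ : ∀ s x, Q1 s x - Q2 s x = (Complex.exp (-(((s * T : ℝ) : ℂ) * x * Complex.I)) * q (s * T)).re := by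
    intro s x
    rw [← hq (s * T) x]
    have e : ∀ y, s * (T * (x - y)) = s * T * (x - y) := fun y => by ring
    have a1 : Q1 s x = ∫ y, Real.cos (s * T * (x - y)) ∂μ := by
      rw [hQ1]
      apply integral_congr_ae
      exact Filter.Eventually.of_forall fun y => by
        show 1 * Real.cos (s * (T * (x - y))) = _
        rw [one_mul, e]
    have a2 : Q2 s x = ∫ y, g y * Real.cos (s * T * (x - y)) := by
      rw [hQ2]
      apply integral_congr_ae
      exact Filter.Eventually.of_forall fun y => by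
        show g y * Real.cos (s * (T * (x - y))) = _
        rw [e]
    rw [a1, a2]
  have hc1 : Continuous fun p : ℝ × ℝ => Q1 p.1 p.2 := by
    rw [hQ1]
    simp only [one_mul]
    apply continuous_of_dominated (bound := fun _ => 1)
    · intro p
      exact (by fun_prop : Continuous fun y : ℝ => Real.cos (p.1 * (T * (p.2 - y)))).aestronglyMeasurable
    · intro p
      exact Filter.Eventually.of_forall fun y => by
        rw [Real.norm_eq_abs]; exact Real.abs_cos_le_one _
    · exact integrable_const _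
    · exact Filter.Eventually.of_forall fun y => by fun_prop
  have hc2 : Continuous fun p : ℝ × ℝ => Q2 p.1 p.2 := by
    rw [hQ2]
    apply continuous_of_dominated (bound := fun y => ‖g y‖)
    · intro p
      exact hg.aestronglyMeasurable.mul
        (by fun_prop : Continuous fun y : ℝ => Real.cos (p.1 * (T * (p.2 - y)))).aestronglyMeasurable
    · intro p
      exact Filter.Eventually.of_forall fun y => by
        rw [norm_mul, Real.norm_eq_abs (Real.cos _)]
        exact mul_le_of_le_one_right (norm_nonneg _) (Real.abs_cos_le_one _)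
    · exact hg.norm
    · exact Filter.Eventually.of_forall fun y => by fun_prop
  have hb : ∀ s x, |Q1 s x - Q2 s x| ≤ 1 + ∫ y, ‖g y‖ := by
    intro s x
    refine (abs_sub _ _).trans (add_le_add ?_ ?_)
    · rw [hQ1]
      simp only [one_mul]
      rw [← Real.norm_eq_abs]
      refine (norm_integral_le_of_norm_le_const (C := 1) (Filter.Eventually.of_forall fun y => ?_)).trans (by simp)
      rw [Real.norm_eq_abs]; exact Real.abs_cos_le_one _
    · rw [hQ2, ← Real.norm_eq_abs]
      refine norm_integral_le_of_norm_le hg.norm (Filter.Eventually.of_forall fun y => ?_)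
      rw [norm_mul, Real.norm_eq_abs (Real.cos _)]
      exact mul_le_of_le_one_right (norm_nonneg _) (Real.abs_cos_le_one _)
  have hcI : ∀ F : ℝ → ℝ → ℝ, Continuous (fun p : ℝ × ℝ => F p.1 p.2) →
      Continuous fun x => ∫ s in Ioc (0:ℝ) 1, (1 - s) * F s x := by
    intro F hF
    have : (fun x => ∫ s in Ioc (0:ℝ) 1, (1 - s) * F s x) = fun x => ∫ s in (0:ℝ)..1, (1 - s) * F s x := by
      ext x
      rw [intervalIntegral.integral_of_le (by norm_num)]
    rw [this]
    apply intervalIntegral.continuous_parametric_intervalIntegral_of_continuous'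
    exact (continuous_const.sub continuous_snd).mul (hF.comp (continuous_snd.prodMk continuous_fst))
  have hcon : ∀ F : ℝ → ℝ, Continuous F → ∀ c d : ℝ, Integrable F (volume.restrict (Ioc c d)) := by
    intro F hF c d
    exact (hF.continuousOn.integrableOn_compact isCompact_Icc).mono_set Ioc_subset_Icc_self
  have e4 : (∫ x in Ioc a b, ∫ s in Ioc (0:ℝ) 1, (1 - s) * Q1 s x) -
      (∫ x in Ioc a b, ∫ s in Ioc (0:ℝ) 1, (1 - s) * Q2 s x) =
      ∫ x in Ioc a b, ∫ s in Ioc (0:ℝ) 1, (1 - s) * (Q1 s x - Q2 s x) := by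
    rw [← integral_sub (hcon _ (hcI _ hc1) a b) (hcon _ (hcI _ hc2) a b)]
    congr 1
    ext x
    rw [← integral_sub (hcon _ _ 0 1) (hcon _ _ 0 1)]
    · congr 1
      ext s
      ring
    · exact (continuous_const.sub continuous_id).mul (hc1.comp (continuous_id.prodMk continuous_const))
    · exact (continuous_const.sub continuous_id).mul (hc2.comp (continuous_id.prodMk continuous_const))
  rw [e4]
  have e5 := swapA (volume.restrict (Ioc a b)) (volume.restrict (Ioc (0:ℝ) 1)) (fun _ => 1)
    (fun s => 1 - s) (integrable_const _) (hcon _ (by fun_prop) 0 1) (fun s x => Q1 s x - Q2 s x)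
    (hc1.sub hc2) _ hb
  simp only [one_mul] at e5
  rw [e5]
  have e6 : |∫ s in Ioc (0:ℝ) 1, (1 - s) * ∫ x in Ioc a b, (Q1 s x - Q2 s x)| ≤
      ∫ s in Ioc (0:ℝ) 1, 2 / T * R s := by
    rw [← Real.norm_eq_abs]
    refine norm_integral_le_of_norm_le (hR.const_mul _) ?_
    refine (ae_restrict_iff' measurableSet_Ioc).mpr (Filter.Eventually.of_forall fun s hs => ?_)
    rw [norm_mul, Real.norm_eq_abs, Real.norm_eq_abs]
    have h1 : |1 - s| ≤ 1 := by rw [abs_le]; constructor <;> linarith [hs.1, hs.2]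
    have h2 : |∫ x in Ioc a b, (Q1 s x - Q2 s x)| ≤ 2 * ‖q (s * T)‖ / (s * T) := by
      simp_rw [hQ]
      exact osc (q (s * T)) (s * T) a b (mul_pos hs.1 hT) hab
    have h3 : 2 * ‖q (s * T)‖ / (s * T) ≤ 2 / T * R s := by
      rw [div_le_iff₀ (mul_pos hs.1 hT)]
      have := hqR s hs
      have h4 : 2 / T * R s * (s * T) = 2 * (s * R s) := by field_simp
      rw [h4]
      linarith
    calc |1 - s| * |∫ x in Ioc a b, (Q1 s x - Q2 s x)| ≤ 1 * |∫ x in Ioc a b, (Q1 s x - Q2 s x)| := by
          gcongr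
      _ ≤ 2 / T * R s := by rw [one_mul]; exact h2.trans h3
  rw [abs_mul, abs_of_pos hT]
  calc T * |∫ s in Ioc (0:ℝ) 1, (1 - s) * ∫ x in Ioc a b, (Q1 s x - Q2 s x)|
      ≤ T * ∫ s in Ioc (0:ℝ) 1, 2 / T * R s := by gcongr
    _ = 2 * ∫ s in Ioc (0:ℝ) 1, R s := by
        rw [integral_const_mul]
        field_simp
    _ ≤ 2 * E := by linarith

end Pool.Agent.X88.EW
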