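import Mathlib

/-! The corrected normal law: density, distribution function, transform. -/

set_option autoImplicit false

namespace Pool.Agent.X88.EW

open MeasureTheory Set Filter Topology

noncomputable def ga (x : ℝ) : ℝ := Real.exp (-(x ^ 2 / 2))

theorem ga_pos (x : ℝ) : 0 < ga x := Real.exp_pos _

theorem ga_deriv (x : ℝ) : HasDerivAt ga (-x * ga x) x := by
  unfold ga
  have h : HasDerivAt (fun x : ℝ => -(x ^ 2 / 2)) (-x) x := by
    have := ((hasDerivAt_pow 2 x).div_const 2).neg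
    refine this.congr_deriv ?_
    norm_num
  refine h.exp.congr_deriv ?_
  ring

theorem pow_ga_int (k : ℕ) : Integrable (fun x : ℝ => x ^ k * ga x) := by
  have h := integrable_rpow_mul_exp_neg_mul_sq (b := 1 / 2) (by norm_num) (s := k) (by
    have : (0:ℝ) ≤ k := Nat.cast_nonneg k
    linarith)
  refine h.congr (Eventually.of_forall fun x => ?_)
  simp only [Real.rpow_natCast]
  unfold ga
  congr 2
  ring

/-- the functions obtained by differentiating -/
noncomputable def h0 (x : ℝ) : ℝ := ga x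
noncomputable def h1 (x : ℝ) : ℝ := -x * ga x
noncomputable def h2 (x : ℝ) : ℝ := (x ^ 2 - 1) * ga x
noncomputable def h3 (x : ℝ) : ℝ := -(x ^ 3 - 3 * x) * ga x
noncomputable def h4 (x : ℝ) : ℝ := (x ^ 4 - 6 * x ^ 2 + 3) * ga x

theorem d0 (x : ℝ) : HasDerivAt h0 (h1 x) x := ga_deriv x
theorem d1 (x : ℝ) : HasDerivAt h1 (h2 x) x := by
  have := (hasDerivAt_id x).neg.mul (ga_deriv x)
  refine this.congr_deriv ?_
  unfold h2
  simp only [id, Pi.neg_apply]
  ring
theorem d2 (x : ℝ) : HasDerivAt h2 (h3 x) x := by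
  have := ((hasDerivAt_pow 2 x).sub_const 1).mul (ga_deriv x)
  refine this.congr_deriv ?_
  unfold h3
  simp only [Nat.cast_ofNat]
  ring
theorem d3 (x : ℝ) : HasDerivAt h3 (h4 x) x := by
  have := ((hasDerivAt_pow 3 x).sub ((hasDerivAt_id x).const_mul 3)).neg.mul (ga_deriv x)
  refine this.congr_deriv ?_
  unfold h4
  simp only [Nat.cast_ofNat, id, Pi.neg_apply, Pi.sub_apply]
  ring

theorem i0 : Integrable h0 := by
  have := pow_ga_int 0
  refine this.congr (Eventually.of_forall fun x => ?_)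
  simp [h0]
theorem i1 : Integrable h1 := by
  have := (pow_ga_int 1).neg
  refine this.congr (Eventually.of_forall fun x => ?_)
  simp [h1]
theorem i2 : Integrable h2 := by
  have := (pow_ga_int 2).sub (pow_ga_int 0)
  refine this.congr (Eventually.of_forall fun x => ?_)
  simp only [h2, Pi.sub_apply]
  ring
theorem i3 : Integrable h3 := by
  have := ((pow_ga_int 1).const_mul 3).sub (pow_ga_int 3)
  refine this.congr (Eventually.of_forall fun x => ?_)
  simp only [h3, Pi.sub_apply]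
  ring
theorem i4 : Integrable h4 := by
  have := ((pow_ga_int 4).sub ((pow_ga_int 2).const_mul 6)).add ((pow_ga_int 0).const_mul 3)
  refine this.congr (Eventually.of_forall fun x => ?_)
  simp only [h4, Pi.sub_apply, Pi.add_apply]
  ring

/-- transform -/
noncomputable def tr (f : ℝ → ℝ) (t : ℝ) : ℂ := ∫ x : ℝ, Complex.exp (t * x * Complex.I) * f x

theorem tr_int (f : ℝ → ℝ) (hf : Integrable f) (t : ℝ) :
    Integrable (fun x : ℝ => Complex.exp (t * x * Complex.I) * f x) := by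
  have h : Integrable (fun x : ℝ => (f x : ℂ)) := hf.ofReal
  refine h.bdd_mul (c := 1) (by fun_prop : Continuous fun x : ℝ =>
      Complex.exp (t * x * Complex.I)).aestronglyMeasurable (Eventually.of_forall fun x => ?_)
  have := Complex.norm_exp_ofReal_mul_I (t * x)
  push_cast at this
  rw [this]

theorem tr_deriv (f f' : ℝ → ℝ) (hd : ∀ x, HasDerivAt f (f' x) x) (hf : Integrable f)
    (hf' : Integrable f') (t : ℝ) : tr f' t = -(t * Complex.I) * tr f t := by
  unfold tr
  have hu : ∀ x : ℝ, HasDerivAt (fun x : ℝ => Complex.exp (t * x * Complex.I))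
      (Complex.exp (t * x * Complex.I) * (t * Complex.I)) x := by
    intro x
    have e1 : HasDerivAt (fun x : ℝ => (x : ℂ)) 1 x := by
      simpa using (hasDerivAt_id x).ofReal_comp
    have e2 : HasDerivAt (fun x : ℝ => (t : ℂ) * x * Complex.I) ((t : ℂ) * 1 * Complex.I) x :=
      (e1.const_mul (t : ℂ)).mul_const Complex.I
    refine e2.cexp.congr_deriv ?_
    ring
  have hv : ∀ x : ℝ, HasDerivAt (fun x : ℝ => (f x : ℂ)) (f' x : ℂ) x := fun x => (hd x).ofReal_comp
  have hI : Integrable (fun x : ℝ => Complex.exp (t * x * Complex.I) * (t * Complex.I) * f x) := by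
    have := (tr_int f hf t).mul_const ((t : ℂ) * Complex.I)
    refine this.congr (Eventually.of_forall fun x => ?_)
    simp only
    ring
  have h := integral_mul_deriv_eq_deriv_mul_of_integrable (fun x _ => hu x) (fun x _ => hv x)
    (tr_int f' hf' t) hI (tr_int f hf t)
  rw [h, ← integral_const_mul, ← integral_neg]
  congr 1
  ext x
  ring

theorem tr0 (t : ℝ) : tr h0 t = ((Real.sqrt (2 * Real.pi) * Real.exp (-(t ^ 2 / 2)) : ℝ) : ℂ) := by
  have h := fourierIntegral_gaussian (b := 1 / 2) (by norm_num) (t : ℂ)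
  unfold tr h0 ga
  have e1 : (∫ x : ℝ, Complex.exp (t * x * Complex.I) * ((Real.exp (-(x ^ 2 / 2)) : ℝ) : ℂ)) =
      ∫ x : ℝ, Complex.exp (Complex.I * t * x) * Complex.exp (-(1 / 2) * (x : ℂ) ^ 2) := by
    congr 1
    ext x
    push_cast
    congr 2 <;> ring
  rw [e1, h]
  push_cast
  congr 1
  · rw [Real.sqrt_eq_rpow, Complex.ofReal_cpow (by positivity)]
    push_cast
    congr 1
    ring
  · congr 1
    ring

theorem tr4 (t : ℝ) : tr h4 t =
    ((Real.sqrt (2 * Real.pi) * (t ^ 4 * Real.exp (-(t ^ 2 / 2))) : ℝ) : ℂ) := by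
  rw [tr_deriv h3 h4 d3 i3 i4, tr_deriv h2 h3 d2 i2 i3, tr_deriv h1 h2 d1 i1 i2,
    tr_deriv h0 h1 d0 i0 i1, tr0]
  have h4 : (Complex.I : ℂ) ^ 4 = 1 := by
    rw [(by norm_num : 4 = 2 * 2), pow_mul, Complex.I_sq]; norm_num
  have e : ∀ X : ℂ, -((t : ℂ) * Complex.I) * (-((t : ℂ) * Complex.I) * (-((t : ℂ) * Complex.I) *
      (-((t : ℂ) * Complex.I) * X))) = (t : ℂ) ^ 4 * X := by
    intro X
    calc _ = (t : ℂ) ^ 4 * Complex.I ^ 4 * X := by ring
      _ = _ := by rw [h4, mul_one]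
  rw [e]
  push_cast
  ring

/-- the corrected density -/
noncomputable def gd (c : ℝ) (x : ℝ) : ℝ := (Real.sqrt (2 * Real.pi))⁻¹ * (h0 x + c * h4 x)

theorem gd_int (c : ℝ) : Integrable (gd c) := ((i0.add (i4.const_mul c)).const_mul _)

theorem tr_gd (c t : ℝ) : tr (gd c) t = ((Real.exp (-(t ^ 2 / 2)) * (1 + c * t ^ 4) : ℝ) : ℂ) := by
  have e : tr (gd c) t = ((Real.sqrt (2 * Real.pi))⁻¹ : ℝ) * (tr h0 t + c * tr h4 t) := by
    unfold tr gd
    rw [← integral_const_mul, ← integral_add (tr_int h0 i0 t) ((tr_int h4 i4 t).const_mul _),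
      ← integral_const_mul]
    congr 1
    ext x
    push_cast
    ring
  rw [e, tr0, tr4, ← Complex.ofReal_mul, ← Complex.ofReal_add, ← Complex.ofReal_mul]
  congr 1
  have : Real.sqrt (2 * Real.pi) ≠ 0 := by positivity
  field_simp

theorem gd_cos (c t x : ℝ) : ∫ y, gd c y * Real.cos (t * (x - y)) =
    (Complex.exp (-(t * x * Complex.I)) * ((Real.exp (-(t ^ 2 / 2)) * (1 + c * t ^ 4) : ℝ) : ℂ)).re := by
  rw [← tr_gd]
  unfold tr
  rw [← integral_const_mul]
  have hi : Integrable (fun y : ℝ => Complex.exp (-(t * x * Complex.I)) *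
      (Complex.exp (t * y * Complex.I) * gd c y)) := (tr_int _ (gd_int c) t).const_mul _
  have h3 := integral_re hi
  simp only [RCLike.re_to_complex] at h3
  rw [← h3]
  congr 1
  ext y
  rw [← mul_assoc, ← Complex.exp_add]
  have e : -((t : ℂ) * x * Complex.I) + t * y * Complex.I = ((-(t * (x - y)) : ℝ) : ℂ) * Complex.I := by
    push_cast
    ring
  rw [e, Complex.re_mul_ofReal, Complex.exp_ofReal_mul_I_re, Real.cos_neg, mul_comm]

theorem mu_cos (μ : Measure ℝ) [IsProbabilityMeasure μ] (t x : ℝ) :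
    ∫ y, Real.cos (t * (x - y)) ∂μ = (Complex.exp (-(t * x * Complex.I)) * charFun μ t).re := by
  rw [charFun_apply_real, ← integral_const_mul]
  have hi0 : Integrable (fun y : ℝ => Complex.exp (t * y * Complex.I)) μ := by
    refine (integrable_const (1:ℝ)).mono' (by fun_prop : Continuous fun y : ℝ =>
      Complex.exp (t * y * Complex.I)).aestronglyMeasurable (Eventually.of_forall fun y => ?_)
    have := Complex.norm_exp_ofReal_mul_I (t * y)
    push_cast at this
    rw [this]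
  have hi : Integrable (fun y : ℝ => Complex.exp (-(t * x * Complex.I)) *
      Complex.exp (t * y * Complex.I)) μ := hi0.const_mul _
  have h3 := integral_re hi
  simp only [RCLike.re_to_complex] at h3
  rw [← h3]
  congr 1
  ext y
  rw [← Complex.exp_add]
  have e : -((t : ℂ) * x * Complex.I) + t * y * Complex.I = ((-(t * (x - y)) : ℝ) : ℂ) * Complex.I := by
    push_cast
    ring
  rw [e, Complex.exp_ofReal_mul_I_re, Real.cos_neg]

theorem h3_tendsto : Tendsto h3 atBot (𝓝 0) := by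
  have h := tendsto_zero_of_hasDerivAt_of_integrableOn_Iic (f := h3) (f' := h4) (a := 0)
    (fun x _ => d3 x) i4.integrableOn i3.integrableOn
  exact h

theorem gd_Iic (c x : ℝ) : ∫ y in Iic x, gd c y =
    (Real.sqrt (2 * Real.pi))⁻¹ * (∫ y in Iic x, Real.exp (-(y ^ 2 / 2))) -
      (Real.sqrt (2 * Real.pi))⁻¹ * c * ((x ^ 3 - 3 * x) * Real.exp (-(x ^ 2 / 2))) := by
  have e4 : ∫ y in Iic x, h4 y = h3 x - 0 :=
    integral_Iic_of_hasDerivAt_of_tendsto' (fun y _ => d3 y) i4.integrableOn h3_tendsto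
  unfold gd
  rw [integral_const_mul, integral_add i0.integrableOn (i4.const_mul c).integrableOn, integral_const_mul, e4]
  unfold h3 h0 ga
  ring

theorem pow_bound (k : ℕ) : ∃ C : ℝ, 0 ≤ C ∧ ∀ x : ℝ, |x| ^ k * ga x ≤ C := by
  refine ⟨1 + 2 ^ k * (k.factorial : ℝ), by positivity, fun x => ?_⟩
  unfold ga
  rw [Real.exp_neg, ← div_eq_mul_inv, div_le_iff₀ (Real.exp_pos _)]
  have h1 := Real.pow_div_factorial_le_exp (x ^ 2 / 2) (by positivity) k
  rw [div_le_iff₀ (by positivity)] at h1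
  have h2 : |x| ^ k ≤ 1 + x ^ (2 * k) := by
    have e : x ^ (2 * k) = (|x| ^ k) ^ 2 := by rw [pow_mul, ← sq_abs x, ← pow_mul, ← pow_mul, mul_comm]
    rw [e]
    nlinarith [sq_nonneg (|x| ^ k - 1), sq_nonneg (|x| ^ k)]
  have h3 : x ^ (2 * k) = 2 ^ k * (x ^ 2 / 2) ^ k := by
    rw [pow_mul, div_pow]
    field_simp
  have h4 : 1 ≤ Real.exp (x ^ 2 / 2) := Real.one_le_exp (by positivity)
  have h5 : 2 ^ k * (x ^ 2 / 2) ^ k ≤ 2 ^ k * (Real.exp (x ^ 2 / 2) * k.factorial) := by gcongr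
  nlinarith

theorem gd_bound : ∃ C : ℝ, 0 ≤ C ∧ ∀ c x : ℝ, |c| ≤ 1 → |gd c x| ≤ C := by
  obtain ⟨C0, hC0, H0⟩ := pow_bound 0
  obtain ⟨C2, hC2, H2⟩ := pow_bound 2
  obtain ⟨C4, hC4, H4⟩ := pow_bound 4
  refine ⟨(Real.sqrt (2 * Real.pi))⁻¹ * (C0 + (C4 + 6 * C2 + 3 * C0)), by positivity, fun c x hc => ?_⟩
  unfold gd
  rw [abs_mul, abs_of_pos (by positivity : 0 < (Real.sqrt (2 * Real.pi))⁻¹)]
  apply mul_le_mul_of_nonneg_left _ (by positivity)
  refine (abs_add_le _ _).trans (add_le_add ?_ ?_)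
  · unfold h0
    rw [abs_of_pos (ga_pos x)]
    simpa using H0 x
  · rw [abs_mul]
    have : |h4 x| ≤ C4 + 6 * C2 + 3 * C0 := by
      unfold h4
      have a0 := H0 x
      have a2 := H2 x
      have a4 := H4 x
      rw [pow_zero, one_mul] at a0
      rw [sq_abs] at a2
      have e4 : |x| ^ 4 = x ^ 4 := by rw [(by norm_num : 4 = 2 * 2), pow_mul, pow_mul, sq_abs]
      rw [e4] at a4
      have g := ga_pos x
      have p1 : 0 ≤ x ^ 2 * ga x := by positivity
      have p2 : 0 ≤ x ^ 4 * ga x := by positivity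
      rw [abs_le]
      constructor <;> nlinarith
    calc |c| * |h4 x| ≤ 1 * |h4 x| := by gcongr
      _ ≤ _ := by rw [one_mul]; exact this

end Pool.Agent.X88.EW
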