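import Pool.Agent.X88.EW.Conv

/-! The smoothing inequality. -/

set_option autoImplicit false

namespace Pool.Agent.X88.EW

open MeasureTheory Set Filter Topology

theorem kT_total (T : ℝ) (hT : 0 < T) : ∫ z, T * kk (T * z) = kap := by
  rw [integral_const_mul, Measure.integral_comp_mul_left, abs_of_pos (inv_pos.mpr hT), smul_eq_mul]
  unfold kap
  field_simp

theorem kT_tail (T : ℝ) (hT : 0 < T) : ∫ z in (Icc (-(32 / T)) (32 / T))ᶜ, T * kk (T * z) ≤ 1 / 8 := by
  refine le_trans (le_of_eq ?_) tail_ge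
  rw [← integral_indicator measurableSet_Icc.compl, ← integral_indicator measurableSet_Icc.compl]
  have h := Measure.integral_comp_mul_left (fun z => (Icc (-32:ℝ) 32)ᶜ.indicator kk z) T
  rw [abs_of_pos (inv_pos.mpr hT), smul_eq_mul] at h
  have h2 : ∫ y, (Icc (-32:ℝ) 32)ᶜ.indicator kk y = T * ∫ x, (Icc (-32:ℝ) 32)ᶜ.indicator kk (T * x) := by
    rw [h]
    field_simp
  rw [h2, ← integral_const_mul]
  congr 1
  ext z
  by_cases hz : z ∈ Icc (-(32 / T)) (32 / T)
  · have hz2 : T * z ∈ Icc (-32:ℝ) 32 := by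
      have h3 : T * (32 / T) = 32 := by field_simp
      constructor
      · have := mul_le_mul_of_nonneg_left hz.1 hT.le
        rw [mul_neg, h3] at this
        exact this
      · have := mul_le_mul_of_nonneg_left hz.2 hT.le
        rw [h3] at this
        exact this
    rw [indicator_of_notMem (by simpa using hz), indicator_of_notMem (by simpa using hz2), mul_zero]
  · have hz2 : T * z ∉ Icc (-32:ℝ) 32 := by
      intro hh
      apply hz
      have h3 : T * (32 / T) = 32 := by field_simp
      constructor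
      · have : T * -(32 / T) ≤ T * z := by rw [mul_neg, h3]; exact hh.1
        exact le_of_mul_le_mul_left this hT
      · have : T * z ≤ T * (32 / T) := by rw [h3]; exact hh.2
        exact le_of_mul_le_mul_left this hT
    rw [indicator_of_mem (by simpa using hz), indicator_of_mem (by simpa using hz2)]

/-- lower bound for a weighted integral with a large central part -/
theorem central (f k : ℝ → ℝ) (A : Set ℝ) (hA : MeasurableSet A) (hk : Integrable k)
    (hf : Integrable (fun z => f z * k z)) (hk0 : ∀ z, 0 ≤ k z) (u M : ℝ) (hM : 0 ≤ M) (hu : 0 ≤ u)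
    (h1 : ∀ z ∈ A, u ≤ f z) (h2 : ∀ z, -M ≤ f z) (κ : ℝ) (hκ : ∫ z, k z = κ) (hκ2 : 1 / 2 ≤ κ)
    (ht : ∫ z in Aᶜ, k z ≤ 1 / 8) : u * (3 / 8) - M * (1 / 8) ≤ ∫ z, f z * k z := by
  rw [← integral_add_compl hA hf]
  have e0 : (∫ z in A, k z) + ∫ z in Aᶜ, k z = κ := by
    rw [integral_add_compl hA hk, hκ]
  have e1 : u * ∫ z in A, k z ≤ ∫ z in A, f z * k z := by
    rw [← integral_const_mul]
    apply setIntegral_mono_on (hk.const_mul u).integrableOn hf.integrableOn hA
    intro z hz
    exact mul_le_mul_of_nonneg_right (h1 z hz) (hk0 z)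
  have e2 : (-M) * ∫ z in Aᶜ, k z ≤ ∫ z in Aᶜ, f z * k z := by
    rw [← integral_const_mul]
    apply setIntegral_mono_on (hk.const_mul (-M)).integrableOn hf.integrableOn hA.compl
    intro z _
    exact mul_le_mul_of_nonneg_right (h2 z) (hk0 z)
  have e3 : 0 ≤ ∫ z in Aᶜ, k z := setIntegral_nonneg hA.compl fun z _ => hk0 z
  have e4 : 3 / 8 ≤ ∫ z in A, k z := by linarith
  have e5 : u * (3 / 8) ≤ u * ∫ z in A, k z := mul_le_mul_of_nonneg_left e4 hu
  have e6 : M * ∫ z in Aᶜ, k z ≤ M * (1 / 8) := mul_le_mul_of_nonneg_left ht hM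
  linarith

theorem nu_diff (g : ℝ → ℝ) (hg : Integrable g) (m : ℝ) (hm : ∀ x, |g x| ≤ m) (a b c d : ℝ)
    (h1 : c ≤ a) (h2 : a ≤ b) (h3 : b ≤ d) :
    |(∫ y in Ioc c d, g y) - ∫ y in Ioc a b, g y| ≤ m * ((d - c) - (b - a)) := by
  rw [← intervalIntegral.integral_of_le h2, ← intervalIntegral.integral_of_le (h1.trans (h2.trans h3))]
  have e : (∫ y in c..d, g y) = (∫ y in c..a, g y) + (∫ y in a..b, g y) + ∫ y in b..d, g y := by
    rw [intervalIntegral.integral_add_adjacent_intervals hg.intervalIntegrable hg.intervalIntegrable,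
      intervalIntegral.integral_add_adjacent_intervals hg.intervalIntegrable hg.intervalIntegrable]
  have e1 : |∫ y in c..a, g y| ≤ m * |a - c| := by
    rw [← Real.norm_eq_abs]
    exact intervalIntegral.norm_integral_le_of_norm_le_const fun x _ => hm x
  have e2 : |∫ y in b..d, g y| ≤ m * |d - b| := by
    rw [← Real.norm_eq_abs]
    exact intervalIntegral.norm_integral_le_of_norm_le_const fun x _ => hm x
  rw [abs_of_nonneg (show (0:ℝ) ≤ a - c by linarith)] at e1
  rw [abs_of_nonneg (show (0:ℝ) ≤ d - b by linarith)] at e2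
  rw [e]
  have : (∫ y in c..a, g y) + (∫ y in a..b, g y) + (∫ y in b..d, g y) - (∫ y in a..b, g y) =
    (∫ y in c..a, g y) + ∫ y in b..d, g y := by ring
  rw [this]
  refine (abs_add_le _ _).trans ?_
  linarith

theorem step (μ : Measure ℝ) [IsProbabilityMeasure μ] (g : ℝ → ℝ) (hg : Integrable g)
    (m : ℝ) (hm : ∀ x, |g x| ≤ m) (T : ℝ) (hT : 0 < T) (E M : ℝ)
    (hJ : ∀ a b, a ≤ b → |∫ z, DD μ g (a - z) (b - z) * (T * kk (T * z))| ≤ E) 
    (hM : ∀ a b, a ≤ b → |DD μ g a b| ≤ M) (a b : ℝ) (hab : a ≤ b) :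
    |DD μ g a b| ≤ 64 * m / T + 8 / 3 * E + M / 3 := by
  have hE : 0 ≤ E := (abs_nonneg _).trans (hJ 0 0 le_rfl)
  have hM0 : 0 ≤ M := (abs_nonneg _).trans (hM 0 0 le_rfl)
  have hm0 : 0 ≤ m := (abs_nonneg _).trans (hm 0)
  set δ : ℝ := 32 / T with hδ
  have hδ0 : 0 < δ := by positivity
  have hkT : Integrable (fun z => T * kk (T * z)) := (kk_int.comp_mul_left' hT.ne').const_mul T
  have hk0 : ∀ z, 0 ≤ T * kk (T * z) := fun z => mul_nonneg hT.le (kk_nonneg _)
  have hB : 64 * m / T = 2 * δ * m := by rw [hδ]; ring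
  rw [hB, abs_le]
  have hcut : 0 ≤ 2 * δ * m := by positivity
  constructor
  · -- lower bound of DD
    by_contra hcon
    push Not at hcon
    set v := -DD μ g a b with hv
    have hv1 : 2 * δ * m + 8 / 3 * E + M / 3 < v := by linarith
    by_cases hl : 2 * δ ≤ b - a
    · have h := central (fun z => -DD μ g (a + δ - z) (b - δ - z)) (fun z => T * kk (T * z))
        (Icc (-δ) δ) measurableSet_Icc hkT (by
          have := (DD_int μ g hg T hT (a + δ) (b - δ) (by linarith)).neg
          refine this.congr (Eventually.of_forall fun z => ?_)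
          simp only [Pi.neg_apply]
          ring) hk0 (v - 2 * δ * m) M hM0 (by linarith) ?_ ?_ kap (kT_total T hT) kap_ge (kT_tail T hT)
      · have h3 : ∫ z, -DD μ g (a + δ - z) (b - δ - z) * (T * kk (T * z)) =
            - ∫ z, DD μ g (a + δ - z) (b - δ - z) * (T * kk (T * z)) := by
          rw [← integral_neg]
          congr 1
          ext z
          ring
        rw [h3] at h
        have h4 := (abs_le.mp (hJ (a + δ) (b - δ) (by linarith))).1
        linarith
      · intro z hz
        have hz1 : -δ ≤ z := hz.1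
        have hz2 : z ≤ δ := hz.2
        unfold DD at hv ⊢
        have h5 : μ.real (Ioc (a + δ - z) (b - δ - z)) ≤ μ.real (Ioc a b) := by
          apply measureReal_mono _ (measure_ne_top _ _)
          apply Ioc_subset_Ioc <;> linarith
        have h6 := nu_diff g hg m hm (a + δ - z) (b - δ - z) a b (by linarith) (by linarith) (by linarith)
        rw [abs_le] at h6
        have h7 : m * (b - a - (b - δ - z - (a + δ - z))) = 2 * δ * m := by ring
        rw [h7] at h6
        linarith [h6.2]
      · intro z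
        have := (abs_le.mp (hM (a + δ - z) (b - δ - z) (by linarith))).2
        linarith
    · have h6 : |∫ y in Ioc a b, g y| ≤ m * (b - a) := by
        rw [← intervalIntegral.integral_of_le hab, ← Real.norm_eq_abs]
        have := intervalIntegral.norm_integral_le_of_norm_le_const (a := a) (b := b) (f := g)
          (fun x _ => hm x)
        rwa [abs_of_nonneg (by linarith : 0 ≤ b - a)] at this
      have h7 : m * (b - a) ≤ 2 * δ * m := by nlinarith
      have h8 : 0 ≤ μ.real (Ioc a b) := measureReal_nonneg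
      unfold DD at hv
      have := (abs_le.mp h6).2
      linarith
  · by_contra hcon
    push Not at hcon
    set v := DD μ g a b with hv
    have h := central (fun z => DD μ g (a - δ - z) (b + δ - z)) (fun z => T * kk (T * z))
        (Icc (-δ) δ) measurableSet_Icc hkT
        (DD_int μ g hg T hT (a - δ) (b + δ) (by linarith))
        hk0 (v - 2 * δ * m) M hM0 (by linarith) ?_ ?_ kap (kT_total T hT) kap_ge (kT_tail T hT)
    · have h4 := (abs_le.mp (hJ (a - δ) (b + δ) (by linarith))).2
      linarith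
    · intro z hz
      have hz1 : -δ ≤ z := hz.1
      have hz2 : z ≤ δ := hz.2
      unfold DD at hv ⊢
      have h5 : μ.real (Ioc a b) ≤ μ.real (Ioc (a - δ - z) (b + δ - z)) := by
        apply measureReal_mono _ (measure_ne_top _ _)
        apply Ioc_subset_Ioc <;> linarith
      have h6 := nu_diff g hg m hm a b (a - δ - z) (b + δ - z) (by linarith) (by linarith) (by linarith)
      rw [abs_le] at h6
      have h7 : m * (b + δ - z - (a - δ - z) - (b - a)) = 2 * δ * m := by ring
      rw [h7] at h6
      linarith [h6.2]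
    · intro z
      exact (abs_le.mp (hM (a - δ - z) (b + δ - z) (by linarith))).1

theorem smoothing (μ : Measure ℝ) [IsProbabilityMeasure μ] (g : ℝ → ℝ) (hg : Integrable g)
    (m : ℝ) (hm : ∀ x, |g x| ≤ m) (T : ℝ) (hT : 0 < T) (E : ℝ)
    (hJ : ∀ a b, a ≤ b → |∫ z, DD μ g (a - z) (b - z) * (T * kk (T * z))| ≤ E) (x : ℝ) :
    |μ.real (Iic x) - ∫ y in Iic x, g y| ≤ 96 * m / T + 4 * E := by
  set S : Set ℝ := {r | ∃ a b : ℝ, a ≤ b ∧ r = |DD μ g a b|} with hS
  have hbd : ∀ a b : ℝ, a ≤ b → |DD μ g a b| ≤ 1 + ∫ y, ‖g y‖ := by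
    intro a b _
    unfold DD
    refine (abs_sub _ _).trans (add_le_add ?_ ?_)
    · rw [abs_of_nonneg measureReal_nonneg]
      exact measureReal_le_one
    · rw [← Real.norm_eq_abs]
      exact (norm_integral_le_integral_norm _).trans
        (setIntegral_le_integral hg.norm (Eventually.of_forall fun _ => norm_nonneg _))
  have hBA : BddAbove S := ⟨1 + ∫ y, ‖g y‖, by
    rintro r ⟨a, b, hab, rfl⟩
    exact hbd a b hab⟩
  have hne : S.Nonempty := ⟨_, 0, 0, le_rfl, rfl⟩
  set M := sSup S with hM
  have hMa : ∀ a b, a ≤ b → |DD μ g a b| ≤ M := fun a b hab => le_csSup hBA ⟨a, b, hab, rfl⟩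
  have h1 : M ≤ 64 * m / T + 8 / 3 * E + M / 3 := by
    apply csSup_le hne
    rintro r ⟨a, b, hab, rfl⟩
    exact step μ g hg m hm T hT E M hJ hMa a b hab
  have h2 : M ≤ 96 * m / T + 4 * E := by
    have : 96 * m / T = 3 / 2 * (64 * m / T) := by ring
    rw [this]
    linarith
  have h3 : Tendsto (fun n : ℕ => DD μ g (x - n) x) atTop (𝓝 (μ.real (Iic x) - ∫ y in Iic x, g y)) := by
    have hx : Tendsto (fun n : ℕ => x - (n:ℝ)) atTop atBot := by
      have := tendsto_natCast_atTop_atTop (R := ℝ)
      exact tendsto_atBot_add_const_left _ x (tendsto_neg_atTop_atBot.comp this)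
    have e1 := intervalIntegral_tendsto_integral_Iic (μ := μ) (f := fun _ => (1:ℝ)) x
      (integrable_const _).integrableOn hx
    have e2 := intervalIntegral_tendsto_integral_Iic (μ := volume) (f := g) x hg.integrableOn hx
    have e3 := e1.sub e2
    simp only [integral_const, MeasurableSet.univ, measureReal_restrict_apply, univ_inter,
        smul_eq_mul, mul_one] at e3
    refine e3.congr fun n => ?_
    unfold DD
    rw [intervalIntegral.integral_of_le (by simp), intervalIntegral.integral_of_le (by simp)]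
    simp
  refine le_of_tendsto h3.abs (Eventually.of_forall fun n => ?_)
  exact (hMa _ _ (by simp)).trans h2

end Pool.Agent.X88.EW
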