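import Pool.Agent.X88.EW.Big
import Pool.Agent.X88.EW.Smo
import Pool.Agent.X88.EW.Gau

/-! The core estimate for an abstract system of coefficients. -/

set_option autoImplicit false

namespace Pool.Agent.X88.EW

open MeasureTheory Set Filter Topology

theorem pow_exp (a : ℝ) (ha : 0 < a) (k : ℕ) :
    ∃ C : ℝ, 0 ≤ C ∧ ∀ x : ℝ, |x| ^ k * Real.exp (-(a * x ^ 2)) ≤ C := by
  refine ⟨1 + (k.factorial : ℝ) / a ^ k, by positivity, fun x => ?_⟩
  rw [Real.exp_neg, ← div_eq_mul_inv, div_le_iff₀ (Real.exp_pos _)]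
  have h1 := Real.pow_div_factorial_le_exp (a * x ^ 2) (by positivity) k
  rw [div_le_iff₀ (by positivity)] at h1
  have h2 : |x| ^ k ≤ 1 + x ^ (2 * k) := by
    have e : x ^ (2 * k) = (|x| ^ k) ^ 2 := by rw [pow_mul, ← sq_abs x, ← pow_mul, ← pow_mul, mul_comm]
    rw [e]
    nlinarith [sq_nonneg (|x| ^ k - 1), sq_nonneg (|x| ^ k)]
  have h3 : x ^ (2 * k) = (a * x ^ 2) ^ k / a ^ k := by
    rw [pow_mul, mul_pow]
    field_simp
  have h4 : 1 ≤ Real.exp (a * x ^ 2) := Real.one_le_exp (by positivity)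
  have h5 : (a * x ^ 2) ^ k / a ^ k ≤ (Real.exp (a * x ^ 2) * k.factorial) / a ^ k := by gcongr
  have h6 : (Real.exp (a * x ^ 2) * k.factorial) / a ^ k = (k.factorial : ℝ) / a ^ k * Real.exp (a * x ^ 2) := by ring
  rw [h6] at h5
  rw [h3] at h2
  linarith

theorem poly1 : ∃ C : ℝ, 0 ≤ C ∧ ∀ t : ℝ, 0 ≤ t →
    (|t| ^ 5 + |t| ^ 4 + |t| ^ 8) * Real.exp (-(t ^ 2 / 3)) ≤ C * (t / (1 + t ^ 2)) := by
  obtain ⟨C3, p3, H3⟩ := pow_exp (1 / 3) (by norm_num) 3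
  obtain ⟨C4, p4, H4⟩ := pow_exp (1 / 3) (by norm_num) 4
  obtain ⟨C5, p5, H5⟩ := pow_exp (1 / 3) (by norm_num) 5
  obtain ⟨C6, p6, H6⟩ := pow_exp (1 / 3) (by norm_num) 6
  obtain ⟨C7, p7, H7⟩ := pow_exp (1 / 3) (by norm_num) 7
  obtain ⟨C9, p9, H9⟩ := pow_exp (1 / 3) (by norm_num) 9
  refine ⟨C3 + C4 + C5 + C6 + C7 + C9, by positivity, fun t ht => ?_⟩
  rw [abs_of_nonneg ht, mul_div_assoc', le_div_iff₀ (by positivity)]
  have e : Real.exp (-(t ^ 2 / 3)) = Real.exp (-(1 / 3 * t ^ 2)) := by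
    congr 1; ring
  rw [e]
  have a3 := H3 t
  have a4 := H4 t
  have a5 := H5 t
  have a6 := H6 t
  have a7 := H7 t
  have a9 := H9 t
  rw [abs_of_nonneg ht] at a3 a4 a5 a6 a7 a9
  set X := Real.exp (-(1 / 3 * t ^ 2)) with hX
  have e2 : (t ^ 5 + t ^ 4 + t ^ 8) * X * (1 + t ^ 2) =
      t * (t ^ 3 * X + t ^ 4 * X + t ^ 5 * X + t ^ 6 * X + t ^ 7 * X + t ^ 9 * X) := by ring
  rw [e2, mul_comm _ t]
  gcongr

theorem poly2 : ∃ C : ℝ, 0 ≤ C ∧ ∀ t : ℝ, Real.exp (-(t ^ 2 / 2)) * (1 + t ^ 4 / 4) ≤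
    C * Real.exp (-(t ^ 2 / 4)) := by
  obtain ⟨C4, p4, H4⟩ := pow_exp (1 / 4) (by norm_num) 4
  refine ⟨1 + C4, by positivity, fun t => ?_⟩
  have e : Real.exp (-(t ^ 2 / 2)) = Real.exp (-(1 / 4 * t ^ 2)) * Real.exp (-(t ^ 2 / 4)) := by
    rw [← Real.exp_add]; congr 1; ring
  have a4 := H4 t
  have e4 : |t| ^ 4 = t ^ 4 := by rw [(by norm_num : 4 = 2 * 2), pow_mul, pow_mul, sq_abs]
  rw [e4] at a4
  have h1 : Real.exp (-(1 / 4 * t ^ 2)) ≤ 1 := by
    rw [Real.exp_le_one_iff]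
    nlinarith [sq_nonneg t]
  have h2 : Real.exp (-(1 / 4 * t ^ 2)) * (1 + t ^ 4 / 4) ≤ 1 + C4 := by nlinarith
  rw [e]
  calc Real.exp (-(1 / 4 * t ^ 2)) * Real.exp (-(t ^ 2 / 4)) * (1 + t ^ 4 / 4)
      = Real.exp (-(1 / 4 * t ^ 2)) * (1 + t ^ 4 / 4) * Real.exp (-(t ^ 2 / 4)) := by ring
    _ ≤ _ := by gcongr

theorem core (C CM c1 c2 η : ℝ) (hC : 0 ≤ C) (hCM : 0 ≤ CM) (hc1 : 0 < c1) (hc2 : 0 < c2) (hη : 0 < η)
    (hrel : CM ≤ c2 * η) :
    ∃ K : ℝ, 0 ≤ K ∧ ∀ (ν : Measure ℝ) [IsProbabilityMeasure ν] (_ : Adm ν) (b n : ℝ) (_ : 0 < b)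
      (_ : b ^ 3 = ∫ x, |x| ^ 5 ∂ν) (_ : b ≤ n) (S : Finset ℕ) (θ : ℕ → ℝ)
      (_ : ∑ i ∈ S, θ i ^ 2 = 1) (_ : ∑ i ∈ S, |θ i| ^ 5 ≤ C / n ^ 3)
      (_ : |(∑ i ∈ S, θ i ^ 4) - 3 / n ^ 2| ≤ C / n ^ 4)
      (_ : ∑ i ∈ S, θ i ^ 4 ≤ C / n ^ 2) (_ : ∀ i ∈ S, |θ i| ≤ CM / n)
      (_ : Block S θ n c1 c2 η) (μ : Measure ℝ) [IsProbabilityMeasure μ]
      (_ : ∀ t, charFun μ t = ∏ i ∈ S, charFun ν (θ i * t)) (x : ℝ),
      |μ.real (Iic x) - ∫ y in Iic x, gd (((∫ x, x ^ 4 ∂ν) - 3) / (8 * n ^ 2)) y| ≤ K * (b / n) ^ 3 := by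
  obtain ⟨Cg, hCg, Hg⟩ := gd_bound
  obtain ⟨C7, hC7, H7⟩ := poly1
  obtain ⟨C8, hC8, H8⟩ := poly2
  set c5 : ℝ := η * c1 ^ 2 / (4096 * c2 ^ 2) with hc5
  have hc50 : 0 < c5 := by positivity
  set c7 : ℝ := 1 / (256 * c2 ^ 2 * η ^ 2) with hc7
  have hc70 : 0 < c7 := by positivity
  set c6 : ℝ := min c5 c7 with hc6
  have hc60 : 0 < c6 := lt_min hc50 hc70
  obtain ⟨C11, hC11, H11⟩ := pow_exp c6 hc60 5
  set A : ℝ := (12 * C + C ^ 2) * C7 with hA
  have hA0 : 0 ≤ A := by positivity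
  set B : ℝ := 1 + C8 with hB
  have hB0 : 0 ≤ B := by positivity
  refine ⟨768 * Cg * c2 + 8 * (2 * A + η * B * C11), by positivity, ?_⟩
  intro ν _ h b n hb hb3 hbn S θ hθ2 hθ5 hθ4 hθ4' hθM hBl μ _ hμ x
  have hb1 := b_one h b hb hb3
  have hn0 : 0 < n := by linarith
  have hk := kap_abs h b hb hb3
  set κ := (∫ x, x ^ 4 ∂ν) - 3 with hκ
  set z : ℝ := n / b with hz
  have hz1 : 1 ≤ z := by rw [hz, le_div_iff₀ hb]; linarith
  have hz0 : 0 < z := by linarith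
  have hbn' : b / n = z⁻¹ := by rw [hz, inv_div]
  rw [hbn']
  set T : ℝ := z ^ 3 / (8 * c2) with hT
  have hT0 : 0 < T := by positivity
  set T1 : ℝ := z / (8 * c2 * η) with hT1
  have hT10 : 0 < T1 := by positivity
  set c : ℝ := κ / (8 * n ^ 2) with hc
  have hcs : |c| ≤ 1 := by
    rw [hc, abs_div, abs_of_pos (by positivity : 0 < 8 * n ^ 2), div_le_one (by positivity)]
    have : b ^ 2 ≤ n ^ 2 := pow_le_pow_left₀ hb.le hbn 2
    nlinarith [sq_nonneg n]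
  set q : ℝ → ℂ := fun t => charFun μ t - (gh κ (n ^ 2) t : ℂ) with hq
  have hq1 : ∀ t x : ℝ, (∫ y, Real.cos (t * (x - y)) ∂μ) - (∫ y, gd c y * Real.cos (t * (x - y))) =
      (Complex.exp (-(t * x * Complex.I)) * q t).re := by
    intro t x
    rw [mu_cos, gd_cos, ← Complex.sub_re, ← mul_sub, hq]
    have : gh κ (n ^ 2) t = Real.exp (-(t ^ 2 / 2)) * (1 + c * t ^ 4) := by
      unfold gh
      rw [hc]
      ring
    simp only
    rw [this]
  set R : ℝ → ℝ := fun s => A * z⁻¹ ^ 3 * (T / (1 + (s * T) ^ 2)) + T * (B * Real.exp (-(c6 * z ^ 2)) / T1) with hR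
  have hRc : Continuous R := by
    have : ∀ s : ℝ, 1 + (s * T) ^ 2 ≠ 0 := fun s => by positivity
    rw [hR]
    fun_prop (disch := exact this _)
  have hRi : IntegrableOn R (Ioc 0 1) :=
    (hRc.continuousOn.integrableOn_compact isCompact_Icc).mono_set Ioc_subset_Icc_self
  have hRI : ∫ s in Ioc (0:ℝ) 1, R s ≤ z⁻¹ ^ 3 * (2 * A + η * B * C11) := by
    rw [← intervalIntegral.integral_of_le (by norm_num)]
    have hd : ∀ s ∈ Set.uIcc (0:ℝ) 1, HasDerivAt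
        (fun s : ℝ => A * z⁻¹ ^ 3 * Real.arctan (s * T) + s * (T * (B * Real.exp (-(c6 * z ^ 2)) / T1)))
        (R s) s := by
      intro s _
      have e1 : HasDerivAt (fun s : ℝ => s * T) T s := by
        simpa using (hasDerivAt_id s).mul_const T
      have e2 := (e1.arctan.const_mul (A * z⁻¹ ^ 3)).add
        ((hasDerivAt_id s).mul_const (T * (B * Real.exp (-(c6 * z ^ 2)) / T1)))
      refine e2.congr_deriv ?_
      rw [hR]
      simp only [one_mul]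
      ring
    rw [intervalIntegral.integral_eq_sub_of_hasDerivAt hd (hRc.intervalIntegrable _ _)]
    simp only [one_mul, zero_mul, Real.arctan_zero, mul_zero, add_zero, sub_zero]
    have g1 : Real.arctan T ≤ 2 := by
      have := Real.arctan_lt_pi_div_two T
      have := Real.pi_le_four
      linarith
    have g2 : T * (B * Real.exp (-(c6 * z ^ 2)) / T1) ≤ z⁻¹ ^ 3 * (η * B * C11) := by
      have e1 : T * (B * Real.exp (-(c6 * z ^ 2)) / T1) =
          z⁻¹ ^ 3 * (η * B * (z ^ 5 * Real.exp (-(c6 * z ^ 2)))) := by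
        rw [hT, hT1]
        field_simp
      rw [e1]
      have := H11 z
      rw [abs_of_pos hz0] at this
      gcongr
    have g3 : A * z⁻¹ ^ 3 * Real.arctan T ≤ A * z⁻¹ ^ 3 * 2 := by gcongr
    linarith
  have hqR : ∀ s ∈ Ioc (0:ℝ) 1, ‖q (s * T)‖ ≤ s * R s := by
    intro s hs
    set t := s * T with ht
    have ht0 : 0 < t := mul_pos hs.1 hT0
    have htT : t ≤ T := by
      rw [ht]
      have := mul_le_mul_of_nonneg_right hs.2 hT0.le
      linarith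
    have e1 : s * R s = A * z⁻¹ ^ 3 * (t / (1 + t ^ 2)) + t * (B * Real.exp (-(c6 * z ^ 2)) / T1) := by
      rw [hR]
      simp only
      rw [← ht, ht]
      ring
    rw [e1]
    rcases le_or_gt t T1 with hcase | hcase
    · have hm := middle h b hb hb3 S θ hθ2 n C (CM / n) t hbn hC hθ5 hθ4 hθ4' hθM (by
        rw [abs_of_pos ht0]
        calc b * (CM / n * t) ≤ b * (CM / n * T1) := by gcongr
          _ ≤ b * (c2 * η / n * T1) := by gcongr
          _ = 1 / 8 := by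
            rw [hT1, hz]
            field_simp) (by positivity)
      rw [← hμ, ← hκ, hbn'] at hm
      have h1 := H7 t ht0.le
      have h2 : ‖q t‖ ≤ A * z⁻¹ ^ 3 * (t / (1 + t ^ 2)) := by
        refine hm.trans ?_
        calc z⁻¹ ^ 3 * (12 * C + C ^ 2) * (|t| ^ 5 + |t| ^ 4 + |t| ^ 8) * Real.exp (-(t ^ 2 / 3))
            = z⁻¹ ^ 3 * (12 * C + C ^ 2) * ((|t| ^ 5 + |t| ^ 4 + |t| ^ 8) * Real.exp (-(t ^ 2 / 3))) := by ring
          _ ≤ z⁻¹ ^ 3 * (12 * C + C ^ 2) * (C7 * (t / (1 + t ^ 2))) := by gcongr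
          _ = _ := by rw [hA]; ring
      have h3 : 0 ≤ t * (B * Real.exp (-(c6 * z ^ 2)) / T1) := by positivity
      linarith
    · have hl := large h b hb hb3 S θ n c1 c2 η t hbn hc1 hc2 hη hBl (by
        have : n / (8 * b * c2 * η) = T1 := by
          rw [hT1, hz]; field_simp
        rw [this]; exact hcase.le) htT
      rw [← hμ, ← hz] at hl
      have h1 : ‖charFun μ t‖ ≤ Real.exp (-(c6 * z ^ 2)) := by
        refine hl.trans (Real.exp_le_exp.mpr ?_)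
        have : c6 * z ^ 2 ≤ c5 * z ^ 2 := by
          have := min_le_left c5 c7
          gcongr
        linarith
      have h2 : ‖(gh κ (n ^ 2) t : ℂ)‖ ≤ C8 * Real.exp (-(c6 * z ^ 2)) := by
        rw [Complex.norm_real, Real.norm_eq_abs]
        unfold gh
        rw [abs_mul, abs_of_pos (Real.exp_pos _)]
        have g1 : |1 + κ * t ^ 4 / (8 * n ^ 2)| ≤ 1 + t ^ 4 / 4 := by
          refine (abs_add_le _ _).trans ?_
          rw [abs_one]
          have : κ * t ^ 4 / (8 * n ^ 2) = κ / (8 * n ^ 2) * t ^ 4 := by ring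
          rw [this, abs_mul, abs_div, abs_of_pos (by positivity : 0 < 8 * n ^ 2),
            abs_of_pos (by positivity : 0 < t ^ 4)]
          have g2 : |κ| / (8 * n ^ 2) ≤ 1 / 4 := by
            rw [div_le_iff₀ (by positivity)]
            have : b ^ 2 ≤ n ^ 2 := pow_le_pow_left₀ hb.le hbn 2
            linarith
          have g3 : |κ| / (8 * n ^ 2) * t ^ 4 ≤ 1 / 4 * t ^ 4 := by gcongr
          linarith
        calc _ ≤ Real.exp (-(t ^ 2 / 2)) * (1 + t ^ 4 / 4) := by gcongr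
          _ ≤ C8 * Real.exp (-(t ^ 2 / 4)) := H8 t
          _ ≤ _ := by
            apply mul_le_mul_of_nonneg_left _ hC8
            apply Real.exp_le_exp.mpr
            have g4 : T1 ^ 2 ≤ t ^ 2 := pow_le_pow_left₀ hT10.le hcase.le 2
            have g5 : c7 * z ^ 2 = T1 ^ 2 / 4 := by
              rw [hc7, hT1]
              field_simp
              norm_num
            have g6 : c6 * z ^ 2 ≤ c7 * z ^ 2 := by
              have := min_le_right c5 c7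
              gcongr
            linarith
      have h3 : ‖q t‖ ≤ B * Real.exp (-(c6 * z ^ 2)) := by
        rw [hq]
        refine (norm_sub_le _ _).trans ?_
        rw [hB, add_mul, one_mul]
        exact add_le_add h1 h2
      have h4 : B * Real.exp (-(c6 * z ^ 2)) ≤ t * (B * Real.exp (-(c6 * z ^ 2)) / T1) := by
        rw [mul_div_assoc', le_div_iff₀ hT10, mul_comm t]
        gcongr
      have h5 : 0 ≤ A * z⁻¹ ^ 3 * (t / (1 + t ^ 2)) := by positivity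
      linarith
  have hJ : ∀ a b, a ≤ b → |∫ z, DD μ (gd c) (a - z) (b - z) * (T * kk (T * z))| ≤
      2 * (z⁻¹ ^ 3 * (2 * A + η * B * C11)) := fun a b hab =>
    Jbound μ (gd c) (gd_int c) q hq1 T hT0 R hRi _ hRI hqR a b hab
  have hs := smoothing μ (gd c) (gd_int c) Cg (fun x => Hg c x hcs) T hT0 _ hJ x
  refine hs.trans (le_of_eq ?_)
  rw [hT]
  field_simp
  ring

end Pool.Agent.X88.EW
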