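import Mathlib

/-! Existence of a smooth weight with second moment three. -/

set_option autoImplicit false

namespace Pool.Agent.X88.EW

open MeasureTheory Set Filter Topology
open scoped ContDiff

/-- the class of weighting functions -/
structure IsWeight (w : ℝ → ℝ) : Prop where
  smooth : ContDiff ℝ ∞ w
  supp : ∀ x, x ∉ Icc (0:ℝ) 1 → w x = 0
  nonneg : ∀ x, 0 ≤ w x
  total : ∫ x in (0:ℝ)..1, w x = 1

theorem weight_zero (w : ℝ → ℝ) (h : IsWeight w) : w 0 = 0 := by
  have hc := h.smooth.continuous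
  have h1 : Tendsto w (𝓝[<] (0:ℝ)) (𝓝 (w 0)) := hc.continuousAt.mono_left nhdsWithin_le_nhds
  have h2 : Tendsto w (𝓝[<] (0:ℝ)) (𝓝 0) := by
    refine tendsto_const_nhds.congr' ?_
    filter_upwards [self_mem_nhdsWithin] with x hx
    refine (h.supp x ?_).symm
    intro hh
    have : x < 0 := hx
    linarith [hh.1]
  exact tendsto_nhds_unique h1 h2

theorem exists_weight : ∃ w : ℝ → ℝ, IsWeight w ∧ ∫ x in (0:ℝ)..1, w x ^ 2 = 3 := by
  let f : ContDiffBump (0:ℝ) := ⟨1 / 3, 1 / 2, by norm_num, by norm_num⟩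
  have hf0 : ∀ x, 0 ≤ f x := fun x => f.nonneg
  have hf1 : ∀ x, f x ≤ 1 := fun x => f.le_one
  have hfc : Continuous f := f.continuous
  have hfi : Integrable f := hfc.integrable_of_hasCompactSupport f.hasCompactSupport
  have hfz : ∀ x : ℝ, 1 / 2 ≤ |x| → f x = 0 := by
    intro x hx
    apply f.zero_of_le_dist
    rw [dist_zero_right, Real.norm_eq_abs]
    exact hx
  have hfo : ∀ x ∈ Icc (-(1 / 3):ℝ) (1 / 3), f x = 1 := by
    intro x hx
    apply f.one_of_mem_closedBall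
    rw [Metric.mem_closedBall, dist_zero_right, Real.norm_eq_abs]
    exact abs_le.mpr hx
  have hf2i : Integrable (fun x => f x ^ 2) := by
    refine hfi.mono' (hfc.pow 2).aestronglyMeasurable (Eventually.of_forall fun x => ?_)
    rw [Real.norm_eq_abs, abs_of_nonneg (by positivity)]
    nlinarith [hf0 x, hf1 x]
  set I : ℝ := ∫ x, f x with hI
  set J : ℝ := ∫ x, f x ^ 2 with hJ
  have hI1 : 2 / 3 ≤ I := by
    have h1 : ∫ x in Icc (-(1 / 3):ℝ) (1 / 3), f x ≤ I :=
      setIntegral_le_integral hfi (Eventually.of_forall hf0)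
    have h2 : ∫ x in Icc (-(1 / 3):ℝ) (1 / 3), f x = ∫ x in Icc (-(1 / 3):ℝ) (1 / 3), (1:ℝ) :=
      setIntegral_congr_fun measurableSet_Icc hfo
    rw [h2] at h1
    simp [Measure.real] at h1
    norm_num at h1
    linarith
  have hJ1 : 2 / 3 ≤ J := by
    have h1 : ∫ x in Icc (-(1 / 3):ℝ) (1 / 3), f x ^ 2 ≤ J :=
      setIntegral_le_integral hf2i (Eventually.of_forall fun x => by positivity)
    have h2 : ∫ x in Icc (-(1 / 3):ℝ) (1 / 3), f x ^ 2 = ∫ x in Icc (-(1 / 3):ℝ) (1 / 3), (1:ℝ) :=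
      setIntegral_congr_fun measurableSet_Icc fun x hx => by
        show f x ^ 2 = 1
        rw [hfo x hx, one_pow]
    rw [h2] at h1
    simp [Measure.real] at h1
    norm_num at h1
    linarith
  have hJI : J ≤ I := integral_mono hf2i hfi fun x => by
    show f x ^ 2 ≤ f x
    nlinarith [hf0 x, hf1 x]
  set h : ℝ := J / (3 * I ^ 2) with hh
  have hh0 : 0 < h := by positivity
  have hh1 : h ≤ 1 := by
    rw [hh, div_le_one (by positivity)]
    nlinarith
  set w : ℝ → ℝ := fun x => (h * I)⁻¹ * f ((x - 1 / 2) / h) with hw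
  have hsupp : ∀ x, x ∉ Icc (0:ℝ) 1 → w x = 0 := by
    intro x hx
    rw [hw]
    simp only
    rw [hfz, mul_zero]
    rw [abs_div, abs_of_pos hh0, le_div_iff₀ hh0]
    have : 1 / 2 ≤ |x - 1 / 2| := by
      rw [le_abs]
      by_contra hcon
      push Not at hcon
      exact hx ⟨by linarith [hcon.2], by linarith [hcon.1]⟩
    nlinarith
  have hcv : ∀ F : ℝ → ℝ, ∫ x, F ((x - 1 / 2) / h) = h * ∫ x, F x := by
    intro F
    rw [integral_sub_right_eq_self (fun x => F (x / h)) (1 / 2), Measure.integral_comp_div,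
      abs_of_pos hh0, smul_eq_mul]
  have hline : ∀ F : ℝ → ℝ, (∀ x, x ∉ Icc (0:ℝ) 1 → F x = 0) → ∫ x in (0:ℝ)..1, F x = ∫ x, F x := by
    intro F hF
    rw [intervalIntegral.integral_of_le (by norm_num), ← integral_Icc_eq_integral_Ioc]
    exact setIntegral_eq_integral_of_forall_compl_eq_zero hF
  refine ⟨w, ⟨?_, hsupp, ?_, ?_⟩, ?_⟩
  · have : ContDiff ℝ ∞ (fun x : ℝ => f ((x - 1 / 2) / h)) :=
      f.contDiff.comp (by fun_prop)
    exact contDiff_const.mul this
  · intro x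
    rw [hw]
    have := hf0 ((x - 1 / 2) / h)
    positivity
  · rw [hline w hsupp, hw]
    simp only
    rw [integral_const_mul, hcv (fun x => f x), ← hI]
    field_simp
  · rw [hline (fun x => w x ^ 2) (fun x hx => by rw [hsupp x hx]; norm_num), hw]
    simp only
    simp_rw [mul_pow]
    rw [integral_const_mul, hcv (fun x => f x ^ 2), ← hJ, hh]
    field_simp

theorem steep (w : ℝ → ℝ) (h : IsWeight w) (h2 : ∃ x, w x ≠ 0) :
    ∃ α γ c : ℝ, 0 < α ∧ α < γ ∧ γ < 1 ∧ 0 < c ∧ (∀ x ∈ Icc α γ, c ≤ w x) ∧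
      ∀ x ∈ Icc α γ, ∀ y ∈ Icc α γ, x ≤ y → c * (y - x) ≤ |w y - w x| := by
  have hc := h.smooth.continuous
  have hd : Differentiable ℝ w := h.smooth.differentiable (by norm_num)
  have hdc : Continuous (deriv w) := h.smooth.continuous_deriv (by norm_num)
  have h0 := weight_zero w h
  obtain ⟨m, hm⟩ := h2
  have hmp : 0 < w m := lt_of_le_of_ne (h.nonneg m) (Ne.symm hm)
  have hmI : m ∈ Icc (0:ℝ) 1 := by
    by_contra hcon
    exact hm (h.supp m hcon)
  have hm0 : 0 < m := by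
    rcases eq_or_lt_of_le hmI.1 with e | e
    · exfalso; apply hm; rw [← e]; exact h0
    · exact e
  -- last zero before m
  have hZ : IsCompact (Icc (0:ℝ) m ∩ w ⁻¹' {0}) := isCompact_Icc.inter_right (isClosed_singleton.preimage hc)
  obtain ⟨z, ⟨hz1, hz2⟩, hz3⟩ := hZ.exists_isGreatest ⟨0, ⟨le_rfl, hm0.le⟩, h0⟩
  have hz4 : w z = 0 := hz2
  have hzm : z < m := by
    rcases eq_or_lt_of_le hz1.2 with e | e
    · exfalso; rw [e] at hz4; linarith
    · exact e
  obtain ⟨ξ, hξ, hξd⟩ := exists_deriv_eq_slope w hzm hc.continuousOn hd.differentiableOn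
  have hξ1 : 0 < deriv w ξ := by
    rw [hξd, hz4]
    apply div_pos <;> linarith
  have hξ2 : 0 < w ξ := by
    rcases eq_or_lt_of_le (h.nonneg ξ) with e | e
    · exfalso
      have := hz3 ⟨⟨by linarith [hz1.1, hξ.1], hξ.2.le⟩, e.symm⟩
      linarith [hξ.1]
    · exact e
  set c : ℝ := min (deriv w ξ / 2) (w ξ / 2) with hcdef
  have hc0 : 0 < c := lt_min (by linarith) (by linarith)
  have e1 : ∀ᶠ x in 𝓝 ξ, c < deriv w x := by
    apply hdc.continuousAt.eventually_const_lt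
    exact lt_of_le_of_lt (min_le_left _ _) (by linarith)
  have e2 : ∀ᶠ x in 𝓝 ξ, c < w x := by
    apply hc.continuousAt.eventually_const_lt
    exact lt_of_le_of_lt (min_le_right _ _) (by linarith)
  have e3 : ∀ᶠ x in 𝓝 ξ, 0 < x ∧ x < 1 :=
    (eventually_gt_nhds (by linarith [hz1.1, hξ.1])).and (eventually_lt_nhds (by linarith [hξ.2, hmI.2]))
  obtain ⟨δ, hδ, hδ2⟩ := Metric.eventually_nhds_iff.mp ((e1.and e2).and e3)
  have hin : ∀ x ∈ Icc (ξ - δ / 2) (ξ + δ / 2), (c < deriv w x ∧ c < w x) ∧ 0 < x ∧ x < 1 := by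
    intro x hx
    apply hδ2
    rw [Real.dist_eq, abs_lt]
    constructor <;> linarith [hx.1, hx.2]
  refine ⟨ξ - δ / 2, ξ + δ / 2, c, (hin _ ⟨le_rfl, by linarith⟩).2.1, by linarith,
    (hin _ ⟨by linarith, le_rfl⟩).2.2, hc0, fun x hx => (hin x hx).1.2.le, ?_⟩
  intro x hx y hy hxy
  have := (convex_Icc (ξ - δ / 2) (ξ + δ / 2)).mul_sub_le_image_sub_of_le_deriv hc.continuousOn
    hd.differentiableOn (C := c) (fun z hz => (hin z (interior_subset hz)).1.1.le) x hx y hy hxy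
  exact this.trans (le_abs_self _)

theorem lipw (w : ℝ → ℝ) (h : IsWeight w) : ∃ L : ℝ, ∀ x y, |w x - w y| ≤ L * |x - y| := by
  have hcs : HasCompactSupport w := HasCompactSupport.intro isCompact_Icc h.supp
  obtain ⟨K, hK⟩ := (h.smooth.of_le (by norm_num : (1 : WithTop ℕ∞) ≤ ∞)).lipschitzWith_of_hasCompactSupport
    hcs (by norm_num)
  refine ⟨K, fun x y => ?_⟩
  have := hK.dist_le_mul x y
  rwa [Real.dist_eq, Real.dist_eq] at this

theorem upw (w : ℝ → ℝ) (h : IsWeight w) : ∃ W : ℝ, ∀ x, w x ≤ W := by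
  have hcs : HasCompactSupport w := HasCompactSupport.intro isCompact_Icc h.supp
  obtain ⟨W, hW⟩ := hcs.exists_bound_of_continuous h.smooth.continuous
  refine ⟨W, fun x => ?_⟩
  have := hW x
  rw [Real.norm_eq_abs] at this
  exact (le_abs_self _).trans this

end Pool.Agent.X88.EW
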