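import Pool.Agent.X88.EW.Wt
import Pool.Agent.X88.EW.Ex

/-! The rate for one universal weight. -/

set_option autoImplicit false

namespace Pool.Agent.X88.EW

open MeasureTheory Set Filter Topology

/-- the corrected normal distribution function -/
noncomputable def GG (m : ℝ) (N : ℕ) (x : ℝ) : ℝ :=
  (Real.sqrt (2 * Real.pi))⁻¹ * (∫ y in Iic x, Real.exp (-(y ^ 2 / 2))) -
    (m - 3) / (8 * Real.sqrt (2 * Real.pi) * N) * ((x ^ 3 - 3 * x) * Real.exp (-(x ^ 2 / 2)))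

theorem GG_eq (m : ℝ) (N : ℕ) (hN : 0 < N) (x : ℝ) :
    ∫ y in Iic x, gd ((m - 3) / (8 * Real.sqrt N ^ 2)) y = GG m N x := by
  have hN0 : (0:ℝ) < N := by exact_mod_cast hN
  rw [gd_Iic, Real.sq_sqrt hN0.le]
  unfold GG
  have : Real.sqrt (2 * Real.pi) ≠ 0 := by positivity
  field_simp

theorem corr_bound : ∃ C : ℝ, 0 ≤ C ∧ ∀ x : ℝ, |(x ^ 3 - 3 * x) * Real.exp (-(x ^ 2 / 2))| ≤ C := by
  obtain ⟨C1, p1, H1⟩ := pow_bound 1
  obtain ⟨C3, p3, H3⟩ := pow_bound 3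
  refine ⟨C3 + 3 * C1, by positivity, fun x => ?_⟩
  have a1 := H1 x
  have a3 := H3 x
  unfold ga at a1 a3
  have g : 0 < Real.exp (-(x ^ 2 / 2)) := Real.exp_pos _
  rw [abs_mul, abs_of_pos g]
  have h : |x ^ 3 - 3 * x| ≤ |x| ^ 3 + 3 * |x| := by
    refine (abs_sub _ _).trans ?_
    rw [abs_pow, abs_mul]
    norm_num
  rw [pow_one] at a1
  nlinarith

theorem gauss_total : (Real.sqrt (2 * Real.pi))⁻¹ * (∫ y : ℝ, Real.exp (-(y ^ 2 / 2))) = 1 := by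
  have h := integral_gaussian (1 / 2)
  have e : ∀ y : ℝ, Real.exp (-(y ^ 2 / 2)) = Real.exp (-(1 / 2) * y ^ 2) := fun y => by
    congr 1; ring
  simp_rw [e]
  rw [h]
  have : Real.pi / (1 / 2) = 2 * Real.pi := by ring
  rw [this]
  exact inv_mul_cancel₀ (by positivity)

theorem trivial_bound : ∃ C : ℝ, 0 ≤ C ∧ ∀ (ν : Measure ℝ) [IsProbabilityMeasure ν] (_ : Adm ν) (b : ℝ)
    (_ : 0 < b) (_ : b ^ 3 = ∫ x, |x| ^ 5 ∂ν) (N : ℕ) (_ : 0 < N) (μ : Measure ℝ) [IsProbabilityMeasure μ]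
    (x : ℝ), |μ.real (Iic x) - GG (∫ x, x ^ 4 ∂ν) N x| ≤ 1 + C * (b ^ 2 / N) := by
  obtain ⟨C, hC, H⟩ := corr_bound
  refine ⟨C, hC, ?_⟩
  intro ν _ h b hb hb3 N hN μ _ x
  have hk := kap_abs h b hb hb3
  have hN0 : (0:ℝ) < N := by exact_mod_cast hN
  have hs : 1 ≤ Real.sqrt (2 * Real.pi) := by
    rw [Real.one_le_sqrt]
    linarith [Real.pi_gt_three]
  have hs0 : 0 < Real.sqrt (2 * Real.pi) := by linarith
  have hgi : Integrable (fun y : ℝ => Real.exp (-(y ^ 2 / 2))) := by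
    have := i0
    exact this
  have g1 : 0 ≤ (Real.sqrt (2 * Real.pi))⁻¹ * ∫ y in Iic x, Real.exp (-(y ^ 2 / 2)) :=
    mul_nonneg (by positivity) (setIntegral_nonneg measurableSet_Iic fun y _ => (Real.exp_pos _).le)
  have g2 : (Real.sqrt (2 * Real.pi))⁻¹ * (∫ y in Iic x, Real.exp (-(y ^ 2 / 2))) ≤ 1 := by
    rw [← gauss_total]
    apply mul_le_mul_of_nonneg_left _ (by positivity)
    exact setIntegral_le_integral hgi (Eventually.of_forall fun y => (Real.exp_pos _).le)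
  have g3 : 0 ≤ μ.real (Iic x) := measureReal_nonneg
  have g4 : μ.real (Iic x) ≤ 1 := measureReal_le_one
  have g5 : |((∫ x, x ^ 4 ∂ν) - 3) / (8 * Real.sqrt (2 * Real.pi) * N) *
      ((x ^ 3 - 3 * x) * Real.exp (-(x ^ 2 / 2)))| ≤ C * (b ^ 2 / N) := by
    rw [abs_mul, abs_div, abs_of_pos (by positivity : 0 < 8 * Real.sqrt (2 * Real.pi) * (N:ℝ))]
    calc |(∫ x, x ^ 4 ∂ν) - 3| / (8 * Real.sqrt (2 * Real.pi) * N) *
          |(x ^ 3 - 3 * x) * Real.exp (-(x ^ 2 / 2))|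
        ≤ 2 * b ^ 2 / (8 * 1 * N) * C := by
          have := H x
          gcongr
      _ ≤ C * (b ^ 2 / N) := by
          have e : 2 * b ^ 2 / (8 * 1 * N) * C = 1 / 4 * (C * (b ^ 2 / N)) := by
            field_simp
            ring
          have : 0 ≤ C * (b ^ 2 / N) := by positivity
          rw [e]
          linarith
  unfold GG
  have e : μ.real (Iic x) - ((Real.sqrt (2 * Real.pi))⁻¹ * (∫ y in Iic x, Real.exp (-(y ^ 2 / 2))) -
      ((∫ x, x ^ 4 ∂ν) - 3) / (8 * Real.sqrt (2 * Real.pi) * N) * ((x ^ 3 - 3 * x) * Real.exp (-(x ^ 2 / 2)))) =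
      (μ.real (Iic x) - (Real.sqrt (2 * Real.pi))⁻¹ * (∫ y in Iic x, Real.exp (-(y ^ 2 / 2)))) +
      ((∫ x, x ^ 4 ∂ν) - 3) / (8 * Real.sqrt (2 * Real.pi) * N) * ((x ^ 3 - 3 * x) * Real.exp (-(x ^ 2 / 2))) := by ring
  rw [e]
  refine (abs_add_le _ _).trans (add_le_add ?_ g5)
  rw [abs_le]
  constructor <;> linarith

theorem sqrt_cube (N : ℕ) : (N : ℝ) ^ (3 / 2 : ℝ) = Real.sqrt N ^ 3 := by
  rw [Real.sqrt_eq_rpow, ← Real.rpow_natCast, ← Real.rpow_mul (Nat.cast_nonneg N)]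
  norm_num

theorem fin : ∃ w : ℝ → ℝ, IsWeight w ∧ ∃ K : ℝ, 0 < K ∧
    ∀ (ν : Measure ℝ) [IsProbabilityMeasure ν] (_ : Adm ν) (N : ℕ) (_ : 2 ≤ N) (_ : 0 < AN w N)
      (μ : Measure ℝ) [IsProbabilityMeasure μ]
      (_ : ∀ t, charFun μ t = ∏ i ∈ Finset.Ico 1 N, charFun ν (th w N i * t)) (x : ℝ),
      |μ.real (Iic x) - GG (∫ x, x ^ 4 ∂ν) N x| ≤ K * (∫ x, |x| ^ 5 ∂ν) / (N : ℝ) ^ (3 / 2 : ℝ) := by
  obtain ⟨w, hw, hw2⟩ := exists_weight
  have hne : ∃ x, w x ≠ 0 := by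
    by_contra hcon
    push Not at hcon
    have := hw.total
    simp [hcon] at this
  obtain ⟨α, γ, c, ha0, hag, hg1, hc0, hlow, hslope⟩ := steep w hw hne
  obtain ⟨L, hL⟩ := lipw w hw
  obtain ⟨W, hW⟩ := upw w hw
  obtain ⟨C, CM, c1, c2, η, N0, hC, hCM, hc1, hc2, hη, hrel, hN0, hco⟩ :=
    coeffs w W L α γ c ⟨hw.nonneg, hW, hL, weight_zero w hw, hw.total, hw2, ha0, hag, hg1, hc0, hlow, hslope⟩
  obtain ⟨K, hK, hcore⟩ := core C CM c1 c2 η hC hCM hc1 hc2 hη hrel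
  obtain ⟨C', hC', htriv⟩ := trivial_bound
  refine ⟨w, hw, K + (1 + C') * (N0:ℝ) ^ 2 + 1, by positivity, ?_⟩
  intro ν _ h N hN hA μ _ hμ x
  have hβ := b_ge h
  set β := ∫ x, |x| ^ 5 ∂ν with hβd
  set b : ℝ := β ^ (1 / 3 : ℝ) with hb
  have hb0 : 0 < b := Real.rpow_pos_of_pos (by linarith) _
  have hb3 : b ^ 3 = β := by
    rw [hb, ← Real.rpow_natCast, ← Real.rpow_mul (by linarith)]
    norm_num
  have hb1 := b_one h b hb0 hb3
  have hNp : 0 < N := by omega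
  have hNr : (2:ℝ) ≤ N := by exact_mod_cast hN
  have hNr0 : (0:ℝ) < N := by linarith
  set n : ℝ := Real.sqrt N with hn
  have hn2 : n ^ 2 = N := Real.sq_sqrt hNr0.le
  have hn0 : 0 < n := Real.sqrt_pos.mpr hNr0
  have hn1 : 1 ≤ n := by
    rw [hn, Real.one_le_sqrt]
    linarith
  have hN01 : (1:ℝ) ≤ (N0:ℝ) ^ 2 := by
    have : (1:ℝ) ≤ N0 := by exact_mod_cast (by omega : 1 ≤ N0)
    exact one_le_pow₀ this
  rw [sqrt_cube, ← hn, mul_div_assoc]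
  have hz : β / n ^ 3 = (b / n) ^ 3 := by rw [div_pow, hb3]
  rw [hz]
  have hz0 : 0 ≤ (b / n) ^ 3 := by positivity
  have ht := htriv ν h b hb0 hb3 N hNp μ x
  by_cases hbn : b ≤ n
  · by_cases hNN : N0 ≤ N
    · obtain ⟨-, h5, h4, h4', hM, hBl⟩ := hco N hNN
      have := hcore ν h b n hb0 hb3 hbn (Finset.Ico 1 N) (th w N)
        (th_sq w hw.nonneg (weight_zero w hw) N (by omega) hA) h5 h4 h4' hM hBl μ hμ x
      rw [GG_eq _ N hNp x] at this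
      refine this.trans ?_
      apply mul_le_mul_of_nonneg_right _ hz0
      have : 0 ≤ (1 + C') * (N0:ℝ) ^ 2 := by positivity
      linarith
    · push Not at hNN
      have hNN' : (N:ℝ) ≤ N0 := by exact_mod_cast hNN.le
      have k1 : 1 ≤ (N0:ℝ) ^ 2 * (b / n) ^ 3 := by
        rw [div_pow, mul_div_assoc', le_div_iff₀ (by positivity), one_mul]
        have e1 : n ^ 3 ≤ (N0:ℝ) ^ 2 := by
          calc n ^ 3 = n ^ 3 * 1 := by ring
            _ ≤ n ^ 3 * n := by gcongr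
            _ = (n ^ 2) ^ 2 := by ring
            _ = (N:ℝ) ^ 2 := by rw [hn2]
            _ ≤ _ := by gcongr
        have e2 : 1 ≤ b ^ 3 := one_le_pow₀ hb1
        nlinarith
      have k2 : b ^ 2 / N ≤ (N0:ℝ) ^ 2 * (b / n) ^ 3 := by
        have e1 : b ^ 2 / N ≤ 1 := by
          rw [div_le_one hNr0, ← hn2]
          exact pow_le_pow_left₀ hb0.le hbn 2
        linarith
      refine ht.trans ?_
      have k3 : C' * (b ^ 2 / N) ≤ C' * ((N0:ℝ) ^ 2 * (b / n) ^ 3) := by gcongr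
      have k4 : 0 ≤ (K + 1) * (b / n) ^ 3 := by positivity
      nlinarith
  · push Not at hbn
    have k0 : 1 ≤ b / n := by rw [le_div_iff₀ hn0]; linarith
    have k1 : 1 ≤ (b / n) ^ 3 := one_le_pow₀ k0
    have k2 : b ^ 2 / N ≤ (b / n) ^ 3 := by
      rw [← hn2, ← div_pow]
      exact pow_le_pow_right₀ k0 (by norm_num)
    refine ht.trans ?_
    have k3 : C' * (b ^ 2 / N) ≤ C' * (b / n) ^ 3 := by gcongr
    have k4 : (1 + C') * (b / n) ^ 3 ≤ (1 + C') * (N0:ℝ) ^ 2 * (b / n) ^ 3 := by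
      apply mul_le_mul_of_nonneg_right _ hz0
      nlinarith
    have k5 : 0 ≤ (K + 1) * (b / n) ^ 3 := by positivity
    nlinarith

end Pool.Agent.X88.EW
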