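import Mathlib

/-! Fejer kernel and the convolution identities. -/

set_option autoImplicit false

namespace Pool.Agent.X88.EW

open MeasureTheory Set

noncomputable def kk (x : ℝ) : ℝ := ∫ t in (0:ℝ)..1, (1 - t) * Real.cos (t * x)

theorem kk_eq (x : ℝ) (hx : x ≠ 0) : kk x = (1 - Real.cos x) / x ^ 2 := by
  unfold kk
  have h1 : ∀ t ∈ Set.uIcc (0:ℝ) 1, HasDerivAt
      (fun t => (1 - t) * Real.sin (t * x) / x - Real.cos (t * x) / x ^ 2)
      ((1 - t) * Real.cos (t * x)) t := by
    intro t _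
    have e1 : HasDerivAt (fun t : ℝ => t * x) x t := by
      simpa using (hasDerivAt_id t).mul_const x
    have e2 : HasDerivAt (fun t : ℝ => Real.sin (t * x)) (Real.cos (t * x) * x) t := e1.sin
    have e3 : HasDerivAt (fun t : ℝ => Real.cos (t * x)) (-Real.sin (t * x) * x) t := e1.cos
    have e4 : HasDerivAt (fun t : ℝ => 1 - t) (-1) t := by
      simpa using (hasDerivAt_id t).const_sub 1
    have e5 := ((e4.mul e2).div_const x).sub (e3.div_const (x ^ 2))
    refine e5.congr_deriv ?_
    field_simp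
    ring
  rw [intervalIntegral.integral_eq_sub_of_hasDerivAt h1
    (Continuous.intervalIntegrable (by fun_prop) _ _)]
  simp only [sub_self, zero_mul, one_mul, zero_div, Real.sin_zero, mul_zero, Real.cos_zero, sub_zero]
  ring

theorem kk_nonneg (x : ℝ) : 0 ≤ kk x := by
  by_cases hx : x = 0
  · subst hx
    unfold kk
    apply intervalIntegral.integral_nonneg (by norm_num)
    intro t ht
    rw [mul_zero, Real.cos_zero, mul_one]
    linarith [ht.2]
  · rw [kk_eq x hx]
    apply div_nonneg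
    · linarith [Real.cos_le_one x]
    · positivity

theorem kk_le (x : ℝ) : kk x ≤ 1 := by
  unfold kk
  have h1 : (∫ t in (0:ℝ)..1, (1:ℝ)) = 1 := by simp
  refine le_trans ?_ (le_of_eq h1)
  apply intervalIntegral.integral_mono_on (by norm_num)
    (Continuous.intervalIntegrable (by fun_prop) _ _) (Continuous.intervalIntegrable (by fun_prop) _ _)
  intro t ht
  have h2 := Real.cos_le_one (t * x)
  have h3 := Real.neg_one_le_cos (t * x)
  nlinarith [ht.1, ht.2]

theorem kk_le2 (x : ℝ) (hx : x ≠ 0) : kk x ≤ 2 / x ^ 2 := by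
  rw [kk_eq x hx]
  have : 0 < x ^ 2 := by positivity
  apply div_le_div_of_nonneg_right _ this.le
  linarith [Real.neg_one_le_cos x]

theorem kk_le3 (x : ℝ) : kk x ≤ 4 * (1 + x ^ 2)⁻¹ := by
  rw [← div_eq_mul_inv, le_div_iff₀ (by positivity)]
  by_cases hx : x = 0
  · subst hx
    have := kk_le 0
    nlinarith
  · have h1 := kk_le x
    have h2 := kk_le2 x hx
    have h3 : 0 < x ^ 2 := by positivity
    rw [le_div_iff₀ h3] at h2
    nlinarith

theorem kk_quarter (x : ℝ) (hx : |x| ≤ 1) : 1 / 4 ≤ kk x := by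
  unfold kk
  have h1 : (∫ t in (0:ℝ)..1, (1 - t) * (1 / 2 : ℝ)) = 1 / 4 := by
    have h1 : ∀ t ∈ Set.uIcc (0:ℝ) 1, HasDerivAt (fun t : ℝ => (t - t ^ 2 / 2) * (1 / 2))
        ((1 - t) * (1 / 2 : ℝ)) t := by
      intro t _
      have e5 := ((hasDerivAt_id t).sub ((hasDerivAt_pow 2 t).div_const 2)).mul_const (1 / 2 : ℝ)
      refine e5.congr_deriv ?_
      norm_num
    rw [intervalIntegral.integral_eq_sub_of_hasDerivAt h1
      (Continuous.intervalIntegrable (by fun_prop) _ _)]
    norm_num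
  rw [← h1]
  apply intervalIntegral.integral_mono_on (by norm_num)
    (Continuous.intervalIntegrable (by fun_prop) _ _) (Continuous.intervalIntegrable (by fun_prop) _ _)
  intro t ht
  apply mul_le_mul_of_nonneg_left _ (by linarith [ht.2])
  have h2 := Real.one_sub_sq_div_two_le_cos (x := t * x)
  have h3 : (t * x) ^ 2 ≤ 1 := by
    rw [mul_pow]
    have h4 : x ^ 2 ≤ 1 := by
      rw [← sq_abs]; exact pow_le_one₀ (abs_nonneg x) hx
    have h5 : t ^ 2 ≤ 1 := pow_le_one₀ ht.1 ht.2
    calc t ^ 2 * x ^ 2 ≤ 1 * 1 := by gcongr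
      _ = 1 := by norm_num
  linarith

theorem kk_cont : Continuous kk := by
  unfold kk
  exact intervalIntegral.continuous_parametric_intervalIntegral_of_continuous' (by fun_prop) _ _

theorem kk_int : Integrable kk := by
  refine Integrable.mono' (integrable_inv_one_add_sq.const_mul 4) kk_cont.aestronglyMeasurable ?_
  filter_upwards with x
  rw [Real.norm_eq_abs, abs_of_nonneg (kk_nonneg x)]
  exact kk_le3 x

/-- total mass -/
noncomputable def kap : ℝ := ∫ x, kk x

theorem kap_ge : 1 / 2 ≤ kap := by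
  unfold kap
  have h1 : ∫ x in Icc (-1:ℝ) 1, kk x ≤ ∫ x, kk x :=
    setIntegral_le_integral kk_int (Filter.Eventually.of_forall kk_nonneg)
  have h2 : ∫ x in Icc (-1:ℝ) 1, (1 / 4 : ℝ) ≤ ∫ x in Icc (-1:ℝ) 1, kk x := by
    apply setIntegral_mono_on (by simp) kk_int.integrableOn measurableSet_Icc
    intro x hx
    exact kk_quarter x (abs_le.mpr hx)
  have h3 : ∫ x in Icc (-1:ℝ) 1, (1 / 4 : ℝ) = 1 / 2 := by
    simp [Measure.real]
    norm_num
  linarith

theorem kk_neg (x : ℝ) : kk (-x) = kk x := by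
  unfold kk
  congr 1
  ext t
  rw [mul_neg, Real.cos_neg]

theorem tail_ge : ∫ x in (Icc (-32:ℝ) 32)ᶜ, kk x ≤ 1 / 8 := by
  have e : (Icc (-32:ℝ) 32)ᶜ = Iio (-32) ∪ Ioi 32 := by
    ext x
    simp only [mem_compl_iff, mem_Icc, mem_union, mem_Iio, mem_Ioi]
    constructor
    · intro h
      by_contra h2
      push Not at h2
      exact h ⟨h2.1, h2.2⟩
    · rintro (h | h) ⟨h1, h2⟩ <;> linarith
  have hd : Disjoint (Iio (-32:ℝ)) (Ioi 32) := by
    rw [Set.disjoint_left]
    intro x hx hx2
    simp only [mem_Iio, mem_Ioi] at hx hx2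
    linarith
  rw [e, setIntegral_union hd measurableSet_Ioi kk_int.integrableOn kk_int.integrableOn]
  have h1 : ∫ x in Ioi (32:ℝ), kk x ≤ 1 / 16 := by
    have hi := integrableOn_Ioi_rpow_of_lt (show (-2:ℝ) < -1 by norm_num) (show (0:ℝ) < 32 by norm_num)
    have h2 : ∫ x in Ioi (32:ℝ), kk x ≤ ∫ x in Ioi (32:ℝ), 2 * x ^ (-2:ℝ) := by
      apply setIntegral_mono_on kk_int.integrableOn (hi.const_mul 2) measurableSet_Ioi
      intro x hx
      simp only [mem_Ioi] at hx
      refine (kk_le2 x (by linarith)).trans (le_of_eq ?_)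
      rw [Real.rpow_neg (by linarith), div_eq_mul_inv]
      norm_num
    refine h2.trans (le_of_eq ?_)
    rw [integral_const_mul, integral_Ioi_rpow_of_lt (by norm_num) (by norm_num)]
    norm_num
  have h2 : ∫ x in Iio (-32:ℝ), kk x = ∫ x in Ioi (32:ℝ), kk x := by
    have h5 := integral_comp_neg_Iic (-32) kk
    rw [neg_neg] at h5
    rw [← h5, setIntegral_congr_set Iio_ae_eq_Iic]
    apply setIntegral_congr_fun measurableSet_Iic
    intro x _
    exact (kk_neg x).symm
  rw [h2]
  linarith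

/-- Fubini for the convolution -/
theorem fub1 (ρ : Measure ℝ) [SFinite ρ] (g k : ℝ → ℝ) (hg : Integrable g ρ) (hk : Integrable k)
    (a b : ℝ) :
    ∫ z, (∫ y in Ioc (a - z) (b - z), g y ∂ρ) * k z =
      ∫ y, g y * (∫ x in Ioc a b, k (x - y)) ∂ρ := by
  have e1 : ∀ z, (∫ y in Ioc (a - z) (b - z), g y ∂ρ) * k z =
      ∫ y, (if a < y + z ∧ y + z ≤ b then g y * k z else 0) ∂ρ := by
    intro z
    rw [← integral_indicator measurableSet_Ioc, ← integral_mul_const]
    congr 1
    ext y
    rw [indicator_apply]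
    by_cases h : a < y + z ∧ y + z ≤ b
    · rw [if_pos h, if_pos ⟨by linarith [h.1], by linarith [h.2]⟩]
    · rw [if_neg h, if_neg, zero_mul]
      rintro ⟨h1, h2⟩
      exact h ⟨by linarith, by linarith⟩
  have e2 : ∀ y, g y * (∫ x in Ioc a b, k (x - y)) =
      ∫ z, (if a < y + z ∧ y + z ≤ b then g y * k z else 0) := by
    intro y
    rw [← integral_indicator measurableSet_Ioc, ← integral_const_mul]
    rw [← integral_sub_right_eq_self (fun z => if a < y + z ∧ y + z ≤ b then g y * k z else 0) y]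
    congr 1
    ext x
    rw [indicator_apply]
    by_cases h : x ∈ Ioc a b
    · rw [if_pos h, if_pos ⟨by linarith [h.1], by linarith [h.2]⟩]
    · rw [if_neg h, if_neg, mul_zero]
      rintro ⟨h1, h2⟩
      exact h ⟨by linarith, by linarith⟩
  simp_rw [e1, e2]
  apply integral_integral_swap
  have h3 : Integrable (fun p : ℝ × ℝ => k p.1 * g p.2) (volume.prod ρ) := hk.mul_prod hg
  have hm : MeasurableSet {p : ℝ × ℝ | a < p.2 + p.1 ∧ p.2 + p.1 ≤ b} := by
    apply MeasurableSet.inter
    · exact measurableSet_lt measurable_const (measurable_snd.add measurable_fst)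
    · exact measurableSet_le (measurable_snd.add measurable_fst) measurable_const
  have h4 := h3.indicator hm
  refine h4.congr (Filter.Eventually.of_forall ?_)
  rintro ⟨z, y⟩
  simp only [indicator_apply, mem_ofPred_eq, Function.uncurry]
  by_cases h : a < y + z ∧ y + z ≤ b
  · rw [if_pos h, if_pos h, mul_comm]
  · rw [if_neg h, if_neg h]

end Pool.Agent.X88.EW
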