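import Pool.Agent.X88.EW.Chf

/-! The middle range: comparison of the product with the corrected normal characteristic function. -/

set_option autoImplicit false

namespace Pool.Agent.X88.EW

open MeasureTheory Set Filter Topology

theorem prod_diff {ι : Type*} (s : Finset ι) (a c : ι → ℂ) (r : ι → ℝ) (hr : ∀ i, 0 < r i)
    (ha : ∀ i ∈ s, ‖a i‖ ≤ r i) (hc : ∀ i ∈ s, ‖c i‖ ≤ r i) :
    ‖∏ i ∈ s, a i - ∏ i ∈ s, c i‖ ≤ (∑ i ∈ s, ‖a i - c i‖ / r i) * ∏ i ∈ s, r i := by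
  classical
  induction s using Finset.induction with
  | empty => simp
  | insert j s hj ih =>
    rw [Finset.prod_insert hj, Finset.prod_insert hj, Finset.sum_insert hj, Finset.prod_insert hj]
    have h1 := ih (fun i hi => ha i (Finset.mem_insert_of_mem hi)) (fun i hi => hc i (Finset.mem_insert_of_mem hi))
    have e : a j * ∏ i ∈ s, a i - c j * ∏ i ∈ s, c i =
        a j * (∏ i ∈ s, a i - ∏ i ∈ s, c i) + (a j - c j) * ∏ i ∈ s, c i := by ring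
    rw [e]
    refine (norm_add_le _ _).trans ?_
    rw [norm_mul, norm_mul]
    have h2 : ‖∏ i ∈ s, c i‖ ≤ ∏ i ∈ s, r i := by
      rw [norm_prod]
      exact Finset.prod_le_prod (fun i _ => norm_nonneg _) fun i hi => hc i (Finset.mem_insert_of_mem hi)
    have h3 := ha j (Finset.mem_insert_self j s)
    have hP : 0 < ∏ i ∈ s, r i := Finset.prod_pos fun i _ => hr i
    have hS : 0 ≤ ∑ i ∈ s, ‖a i - c i‖ / r i := Finset.sum_nonneg fun i _ => div_nonneg (norm_nonneg _) (hr i).le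
    have h4 : ‖a j‖ * ‖∏ i ∈ s, a i - ∏ i ∈ s, c i‖ ≤ r j * ((∑ i ∈ s, ‖a i - c i‖ / r i) * ∏ i ∈ s, r i) :=
      mul_le_mul h3 h1 (norm_nonneg _) (hr j).le
    have h5 : ‖a j - c j‖ * ‖∏ i ∈ s, c i‖ ≤ ‖a j - c j‖ * ∏ i ∈ s, r i :=
      mul_le_mul_of_nonneg_left h2 (norm_nonneg _)
    have h6 : (‖a j - c j‖ / r j + ∑ i ∈ s, ‖a i - c i‖ / r i) * (r j * ∏ i ∈ s, r i) =
        r j * ((∑ i ∈ s, ‖a i - c i‖ / r i) * ∏ i ∈ s, r i) + ‖a j - c j‖ * ∏ i ∈ s, r i := by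
      have := (hr j).ne'
      field_simp
      ring
    rw [h6]
    exact add_le_add h4 h5

variable {ν : Measure ℝ} [IsProbabilityMeasure ν]

theorem b_one (h : Adm ν) (b : ℝ) (hb : 0 < b) (hb3 : b ^ 3 = ∫ x, |x| ^ 5 ∂ν) : 1 ≤ b := by
  have h4 := b_ge h
  by_contra hc
  push Not at hc
  have : b ^ 3 < 1 := pow_lt_one₀ hb.le hc (by norm_num)
  linarith

theorem kap_abs (h : Adm ν) (b : ℝ) (hb : 0 < b) (hb3 : b ^ 3 = ∫ x, |x| ^ 5 ∂ν) :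
    |(∫ x, x ^ 4 ∂ν) - 3| ≤ 2 * b ^ 2 := by
  have h1 := m4_le h b hb hb3
  have h2 := m4_ge h
  have h3 := b_one h b hb hb3
  rw [abs_le]
  constructor <;> nlinarith

theorem factor (h : Adm ν) (b : ℝ) (hb : 0 < b) (hb3 : b ^ 3 = ∫ x, |x| ^ 5 ∂ν) (s : ℝ)
    (hs : b * |s| ≤ 1 / 8) :
    ‖charFun ν s - ((Real.exp (-(s ^ 2 / 2) + ((∫ x, x ^ 4 ∂ν) - 3) * s ^ 4 / 24) : ℝ) : ℂ)‖ ≤
      6 * b ^ 3 * |s| ^ 5 ∧
    Real.exp (-(s ^ 2 / 2) + ((∫ x, x ^ 4 ∂ν) - 3) * s ^ 4 / 24) ≤ Real.exp (-(s ^ 2 / 3)) := by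
  have h1 := phi_approx h s
  rw [← hb3] at h1
  have hk := kap_abs h b hb hb3
  have hb1 := b_one h b hb hb3
  set m := ∫ x, x ^ 4 ∂ν with hm
  set κ := m - 3 with hκ
  set a := |s| with ha
  have ha0 : 0 ≤ a := abs_nonneg s
  have hsq : s ^ 2 = a ^ 2 := (sq_abs s).symm
  have hs4 : s ^ 4 = a ^ 4 := by rw [(by norm_num : 4 = 2 * 2), pow_mul, pow_mul, hsq]
  have ha1 : a ≤ 1 / 8 := by nlinarith
  have hba : 0 ≤ b * a := by positivity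
  -- size of u
  set u := -(s ^ 2 / 2) + κ * s ^ 4 / 24 with hu
  have q1 : |κ| * a ^ 4 ≤ a ^ 2 / 32 := by
    calc |κ| * a ^ 4 ≤ 2 * b ^ 2 * a ^ 4 := by gcongr
      _ = 2 * (b * a) ^ 2 * a ^ 2 := by ring
      _ ≤ 2 * (1 / 8) ^ 2 * a ^ 2 := by gcongr
      _ = a ^ 2 / 32 := by ring
  have q2 : |κ * s ^ 4 / 24| ≤ a ^ 2 / 768 := by
    rw [abs_div, abs_mul, hs4, abs_of_nonneg (by positivity : (0:ℝ) ≤ a ^ 4)]
    norm_num
    linarith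
  rw [abs_le] at q2
  have hu1 : |u| ≤ a ^ 2 := by
    rw [hu, hsq, abs_le]
    constructor <;> nlinarith [sq_nonneg a]
  have hu2 : u ≤ -(s ^ 2 / 3) := by
    rw [hu, hsq] at *
    nlinarith [sq_nonneg a]
  refine ⟨?_, Real.exp_le_exp.mpr hu2⟩
  have hu3 : |u| ≤ 1 := by nlinarith
  have h3 := Real.exp_bound hu3 (n := 3) (by norm_num)
  simp only [Finset.sum_range_succ, Finset.sum_range_zero, Nat.factorial] at h3
  norm_num at h3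
  have h4 : |Real.exp u - (1 + u + u ^ 2 / 2)| ≤ a ^ 6 := by
    refine h3.trans ?_
    have : |u| ^ 3 ≤ (a ^ 2) ^ 3 := pow_le_pow_left₀ (abs_nonneg u) hu1 3
    have e : (a ^ 2) ^ 3 = a ^ 6 := by ring
    rw [e] at this
    have : 0 ≤ a ^ 6 := by positivity
    nlinarith
  have h5 : |(1 + u + u ^ 2 / 2) - (1 - s ^ 2 / 2 + m * s ^ 4 / 24)| ≤ b ^ 3 * a ^ 5 := by
    have e : (1 + u + u ^ 2 / 2) - (1 - s ^ 2 / 2 + m * s ^ 4 / 24) =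
        -(κ * a ^ 6 / 48) + κ ^ 2 * a ^ 8 / 1152 := by
      have e6 : s ^ 6 = a ^ 6 := by rw [(by norm_num : 6 = 2 * 3), pow_mul, pow_mul, hsq]
      have e8 : s ^ 8 = a ^ 8 := by rw [(by norm_num : 8 = 2 * 4), pow_mul, pow_mul, hsq]
      rw [hu, ← e6, ← e8, hκ]
      ring
    rw [e]
    refine (abs_add_le _ _).trans ?_
    rw [abs_neg, abs_div, abs_mul, abs_of_nonneg (by positivity : (0:ℝ) ≤ a ^ 6), 
      abs_of_nonneg (by positivity : 0 ≤ κ ^ 2 * a ^ 8 / 1152), abs_of_pos (by norm_num : (0:ℝ) < 48)]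
    have t1 : |κ| * a ^ 6 / 48 ≤ b ^ 3 * a ^ 5 / 2 := by
      have : |κ| * a ^ 6 ≤ 2 * b ^ 2 * a ^ 6 := by gcongr
      have e1 : 2 * b ^ 2 * a ^ 6 = 2 * b ^ 2 * a * a ^ 5 := by ring
      have e2 : 2 * b ^ 2 * a * a ^ 5 ≤ 2 * b ^ 3 * a ^ 5 := by
        have : b ^ 2 * a ≤ b ^ 3 := by nlinarith [sq_nonneg b]
        have h7 : 0 ≤ a ^ 5 := by positivity
        nlinarith
      have h7 : 0 ≤ b ^ 3 * a ^ 5 := by positivity
      linarith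
    have t2 : κ ^ 2 * a ^ 8 / 1152 ≤ b ^ 3 * a ^ 5 / 2 := by
      have e0 : κ ^ 2 ≤ (2 * b ^ 2) ^ 2 := by
        rw [← sq_abs κ]
        exact pow_le_pow_left₀ (abs_nonneg κ) hk 2
      have e1 : κ ^ 2 * a ^ 8 ≤ (2 * b ^ 2) ^ 2 * a ^ 8 := by gcongr
      have e2 : (2 * b ^ 2) ^ 2 * a ^ 8 = 4 * ((b * a) * a ^ 2) * (b ^ 3 * a ^ 5) := by ring
      have e3 : 4 * ((b * a) * a ^ 2) ≤ 1 := by
        have : (b * a) * a ^ 2 ≤ 1 / 8 * (1 / 8) ^ 2 := by gcongr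
        linarith
      have h7 : 0 ≤ b ^ 3 * a ^ 5 := by positivity
      have e4 : 4 * ((b * a) * a ^ 2) * (b ^ 3 * a ^ 5) ≤ 1 * (b ^ 3 * a ^ 5) := by gcongr
      linarith
    linarith
  have h6 : a ^ 6 ≤ b ^ 3 * a ^ 5 := by
    have h8 : a ≤ b ^ 3 := by
      have : 1 ≤ b ^ 3 := one_le_pow₀ hb1
      linarith
    have h7 : 0 ≤ a ^ 5 := by positivity
    calc a ^ 6 = a * a ^ 5 := by ring
      _ ≤ b ^ 3 * a ^ 5 := by gcongr
  have h7 : ‖((1 - s ^ 2 / 2 + m * s ^ 4 / 24 : ℝ) : ℂ) - ((Real.exp u : ℝ) : ℂ)‖ ≤ 2 * (b ^ 3 * a ^ 5) := by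
    rw [← Complex.ofReal_sub, Complex.norm_real, Real.norm_eq_abs, abs_sub_comm]
    have e : Real.exp u - (1 - s ^ 2 / 2 + m * s ^ 4 / 24) =
        (Real.exp u - (1 + u + u ^ 2 / 2)) + ((1 + u + u ^ 2 / 2) - (1 - s ^ 2 / 2 + m * s ^ 4 / 24)) := by ring
    rw [e]
    refine (abs_add_le _ _).trans ?_
    linarith
  calc ‖charFun ν s - ((Real.exp u : ℝ) : ℂ)‖
      ≤ ‖charFun ν s - ((1 - s ^ 2 / 2 + m * s ^ 4 / 24 : ℝ) : ℂ)‖ +
        ‖((1 - s ^ 2 / 2 + m * s ^ 4 / 24 : ℝ) : ℂ) - ((Real.exp u : ℝ) : ℂ)‖ := norm_sub_le_norm_sub_add_norm_sub _ _ _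
    _ ≤ 4 * b ^ 3 * a ^ 5 + 2 * (b ^ 3 * a ^ 5) := add_le_add h1 h7
    _ = 6 * b ^ 3 * a ^ 5 := by ring

theorem exp2 (w : ℝ) : |Real.exp w - 1 - w| ≤ w ^ 2 * Real.exp |w| := by
  have h := Complex.norm_exp_sub_sum_le_norm_mul_exp (w : ℂ) 2
  simp only [Finset.sum_range_succ, Finset.sum_range_zero, Nat.factorial] at h
  norm_num at h
  rw [← sq_abs w]
  have e : Complex.exp (w : ℂ) - (1 + (w:ℂ)) = ((Real.exp w - 1 - w : ℝ) : ℂ) := by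
    push_cast
    ring
  rw [e, Complex.norm_real, Real.norm_eq_abs] at h
  simpa using h

/-- the transform of the corrected normal law -/
noncomputable def gh (κ N t : ℝ) : ℝ := Real.exp (-(t ^ 2 / 2)) * (1 + κ * t ^ 4 / (8 * N))

theorem middle (h : Adm ν) (b : ℝ) (hb : 0 < b) (hb3 : b ^ 3 = ∫ x, |x| ^ 5 ∂ν)
    {ι : Type*} (S : Finset ι) (θ : ι → ℝ) (hθ : ∑ i ∈ S, θ i ^ 2 = 1) (n C M t : ℝ) (hbn : b ≤ n)
    (hC : 0 ≤ C) (h5 : ∑ i ∈ S, |θ i| ^ 5 ≤ C / n ^ 3) (h4 : |(∑ i ∈ S, θ i ^ 4) - 3 / n ^ 2| ≤ C / n ^ 4)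
    (h4' : ∑ i ∈ S, θ i ^ 4 ≤ C / n ^ 2) (hM : ∀ i ∈ S, |θ i| ≤ M) (ht : b * (M * |t|) ≤ 1 / 8)
    (hM0 : 0 ≤ M) :
    ‖∏ i ∈ S, charFun ν (θ i * t) - (gh ((∫ x, x ^ 4 ∂ν) - 3) (n ^ 2) t : ℂ)‖ ≤
      (b / n) ^ 3 * (12 * C + C ^ 2) * (|t| ^ 5 + |t| ^ 4 + |t| ^ 8) * Real.exp (-(t ^ 2 / 3)) := by
  have hb1 := b_one h b hb hb3
  have hk := kap_abs h b hb hb3
  have hn : 1 ≤ n := hb1.trans hbn
  have hn0 : 0 < n := by linarith
  set κ := (∫ x, x ^ 4 ∂ν) - 3 with hκ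
  set a := |t| with ha
  have ha0 : 0 ≤ a := abs_nonneg t
  have hsq : t ^ 2 = a ^ 2 := (sq_abs t).symm
  have ht4 : t ^ 4 = a ^ 4 := by rw [(by norm_num : 4 = 2 * 2), pow_mul, pow_mul, hsq]
  have hs : ∀ i ∈ S, b * |θ i * t| ≤ 1 / 8 := by
    intro i hi
    rw [abs_mul]
    refine le_trans ?_ ht
    gcongr
    exact hM i hi
  -- product against product
  have p1 := prod_diff S (fun i => charFun ν (θ i * t))
    (fun i => ((Real.exp (-((θ i * t) ^ 2 / 2) + κ * (θ i * t) ^ 4 / 24) : ℝ) : ℂ))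
    (fun i => Real.exp (-((θ i * t) ^ 2 / 3))) (fun i => Real.exp_pos _)
    (fun i hi => phi_exp h b hb hb3 _ (hs i hi))
    (fun i hi => by
      rw [Complex.norm_real, Real.norm_eq_abs, abs_of_pos (Real.exp_pos _)]
      exact (factor h b hb hb3 _ (hs i hi)).2)
  have p2 : ∏ i ∈ S, Real.exp (-((θ i * t) ^ 2 / 3)) = Real.exp (-(t ^ 2 / 3)) := by
    rw [← Real.exp_sum]
    congr 1
    have : ∀ i, -((θ i * t) ^ 2 / 3) = θ i ^ 2 * (-(t ^ 2 / 3)) := fun i => by ring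
    simp_rw [this]
    rw [← Finset.sum_mul, hθ, one_mul]
  have p3 : ∑ i ∈ S, ‖charFun ν (θ i * t) - ((Real.exp (-((θ i * t) ^ 2 / 2) + κ * (θ i * t) ^ 4 / 24) : ℝ) : ℂ)‖ /
      Real.exp (-((θ i * t) ^ 2 / 3)) ≤ 12 * b ^ 3 * a ^ 5 * (C / n ^ 3) := by
    calc _ ≤ ∑ i ∈ S, 12 * b ^ 3 * a ^ 5 * |θ i| ^ 5 := by
          apply Finset.sum_le_sum
          intro i hi
          have f1 := (factor h b hb hb3 _ (hs i hi)).1
          have f2 : (θ i * t) ^ 2 ≤ 1 := by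
            have := hs i hi
            have h0 := abs_nonneg (θ i * t)
            rw [← sq_abs]
            have : |θ i * t| ≤ 1 := by nlinarith
            exact pow_le_one₀ h0 this
          have f3 : 1 / 2 ≤ Real.exp (-((θ i * t) ^ 2 / 3)) := by
            have := Real.add_one_le_exp (-((θ i * t) ^ 2 / 3))
            linarith
          rw [div_le_iff₀ (Real.exp_pos _)]
          refine f1.trans ?_
          rw [abs_mul, mul_pow]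
          have f4 : 0 ≤ 12 * b ^ 3 * a ^ 5 * |θ i| ^ 5 := by positivity
          calc 6 * b ^ 3 * (|θ i| ^ 5 * |t| ^ 5) = 12 * b ^ 3 * a ^ 5 * |θ i| ^ 5 * (1 / 2) := by ring
            _ ≤ _ := mul_le_mul_of_nonneg_left f3 f4
      _ = 12 * b ^ 3 * a ^ 5 * ∑ i ∈ S, |θ i| ^ 5 := by rw [Finset.mul_sum]
      _ ≤ _ := by gcongr
  have p4 : ∏ i ∈ S, ((Real.exp (-((θ i * t) ^ 2 / 2) + κ * (θ i * t) ^ 4 / 24) : ℝ) : ℂ) =
      ((Real.exp (-(t ^ 2 / 2)) * Real.exp (κ * t ^ 4 * (∑ i ∈ S, θ i ^ 4) / 24) : ℝ) : ℂ) := by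
    rw [← Complex.ofReal_prod, ← Real.exp_sum, ← Real.exp_add]
    congr 2
    rw [Finset.sum_add_distrib]
    congr 1
    · have : ∀ i, -((θ i * t) ^ 2 / 2) = θ i ^ 2 * (-(t ^ 2 / 2)) := fun i => by ring
      simp_rw [this]
      rw [← Finset.sum_mul, hθ, one_mul]
    · rw [Finset.mul_sum, Finset.sum_div]
      refine Finset.sum_congr rfl fun i _ => ?_
      ring
  rw [p2, p4] at p1
  set Q4 := ∑ i ∈ S, θ i ^ 4 with hQ4
  set w := κ * t ^ 4 * Q4 / 24 with hw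
  set v := κ * t ^ 4 / (8 * n ^ 2) with hv
  have hQ0 : 0 ≤ Q4 := Finset.sum_nonneg fun i _ => by positivity
  have hQM : Q4 ≤ M ^ 2 := by
    calc Q4 ≤ ∑ i ∈ S, M ^ 2 * θ i ^ 2 := by
          apply Finset.sum_le_sum
          intro i hi
          have : θ i ^ 2 ≤ M ^ 2 := by
            rw [← sq_abs]; exact pow_le_pow_left₀ (abs_nonneg _) (hM i hi) 2
          have h9 : 0 ≤ θ i ^ 2 := sq_nonneg _
          nlinarith
      _ = M ^ 2 := by rw [← Finset.mul_sum, hθ, mul_one]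
  have w1 : |w| ≤ t ^ 2 / 12 := by
    rw [hw, abs_div, abs_mul, abs_mul, ht4, abs_of_nonneg (by positivity : (0:ℝ) ≤ a ^ 4), abs_of_nonneg hQ0,
      abs_of_pos (by norm_num : (0:ℝ) < 24)]
    have : |κ| * a ^ 4 * Q4 ≤ 2 * b ^ 2 * a ^ 4 * M ^ 2 := by gcongr
    have e : 2 * b ^ 2 * a ^ 4 * M ^ 2 = 2 * (b * (M * a)) ^ 2 * a ^ 2 := by ring
    have e2 : 2 * (b * (M * a)) ^ 2 * a ^ 2 ≤ 2 * (1 / 8) ^ 2 * a ^ 2 := by gcongr
    rw [hsq]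
    nlinarith [sq_nonneg a]
  have w2 : w ^ 2 ≤ (b / n) ^ 3 * C ^ 2 * a ^ 8 := by
    have e1 : |w| ≤ b ^ 2 * a ^ 4 * (C / n ^ 2) := by
      rw [hw, abs_div, abs_mul, abs_mul, ht4, abs_of_nonneg (by positivity : (0:ℝ) ≤ a ^ 4), abs_of_nonneg hQ0,
        abs_of_pos (by norm_num : (0:ℝ) < 24)]
      have : |κ| * a ^ 4 * Q4 ≤ 2 * b ^ 2 * a ^ 4 * (C / n ^ 2) := by gcongr
      have h9 : 0 ≤ b ^ 2 * a ^ 4 * (C / n ^ 2) := by positivity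
      linarith
    have e2 : w ^ 2 ≤ (b ^ 2 * a ^ 4 * (C / n ^ 2)) ^ 2 := by
      rw [← sq_abs]; exact pow_le_pow_left₀ (abs_nonneg _) e1 2
    have e3 : (b ^ 2 * a ^ 4 * (C / n ^ 2)) ^ 2 = (b / n) * ((b / n) ^ 3 * C ^ 2 * a ^ 8) := by
      field_simp
    rw [e3] at e2
    have h9 : 0 ≤ (b / n) ^ 3 * C ^ 2 * a ^ 8 := by positivity
    have h10 : b / n ≤ 1 := by rw [div_le_one hn0]; exact hbn
    calc w ^ 2 ≤ _ := e2
      _ ≤ 1 * ((b / n) ^ 3 * C ^ 2 * a ^ 8) := by gcongr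
      _ = _ := one_mul _
  have w3 : |w - v| ≤ (b / n) ^ 3 * C * a ^ 4 := by
    have e1 : w - v = κ * a ^ 4 / 24 * (Q4 - 3 / n ^ 2) := by
      rw [hw, hv, ht4]
      field_simp
      ring
    rw [e1, abs_mul, abs_div, abs_mul, abs_of_nonneg (by positivity : (0:ℝ) ≤ a ^ 4),
      abs_of_pos (by norm_num : (0:ℝ) < 24)]
    calc |κ| * a ^ 4 / 24 * |Q4 - 3 / n ^ 2| ≤ 2 * b ^ 2 * a ^ 4 / 24 * (C / n ^ 4) := by gcongr
      _ ≤ b ^ 2 * a ^ 4 * (C / n ^ 4) := by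
          have h9 : 0 ≤ b ^ 2 * a ^ 4 * (C / n ^ 4) := by positivity
          have e : 2 * b ^ 2 * a ^ 4 / 24 * (C / n ^ 4) = 1 / 12 * (b ^ 2 * a ^ 4 * (C / n ^ 4)) := by ring
          rw [e]
          linarith
      _ = (1 / (b * n)) * ((b / n) ^ 3 * C * a ^ 4) := by field_simp
      _ ≤ 1 * ((b / n) ^ 3 * C * a ^ 4) := by
          have : 1 / (b * n) ≤ 1 := by
            rw [div_le_one (by positivity)]
            nlinarith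
          gcongr
      _ = _ := one_mul _
  have w4 : ‖((Real.exp (-(t ^ 2 / 2)) * Real.exp w : ℝ) : ℂ) - (gh κ (n ^ 2) t : ℂ)‖ ≤
      ((b / n) ^ 3 * C ^ 2 * a ^ 8 + (b / n) ^ 3 * C * a ^ 4) * Real.exp (-(t ^ 2 / 3)) := by
    rw [← Complex.ofReal_sub, Complex.norm_real, Real.norm_eq_abs]
    have e : Real.exp (-(t ^ 2 / 2)) * Real.exp w - gh κ (n ^ 2) t =
        Real.exp (-(t ^ 2 / 2)) * ((Real.exp w - 1 - w) + (w - v)) := by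
      unfold gh
      ring
    rw [e, abs_mul, abs_of_pos (Real.exp_pos _)]
    have g1 : |(Real.exp w - 1 - w) + (w - v)| ≤
        ((b / n) ^ 3 * C ^ 2 * a ^ 8 + (b / n) ^ 3 * C * a ^ 4) * Real.exp (t ^ 2 / 12) := by
      refine (abs_add_le _ _).trans ?_
      have g2 := exp2 w
      have g3 : Real.exp |w| ≤ Real.exp (t ^ 2 / 12) := Real.exp_le_exp.mpr w1
      have g4 : 1 ≤ Real.exp (t ^ 2 / 12) := Real.one_le_exp (by positivity)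
      have g5 : w ^ 2 * Real.exp |w| ≤ ((b / n) ^ 3 * C ^ 2 * a ^ 8) * Real.exp (t ^ 2 / 12) :=
        mul_le_mul w2 g3 (Real.exp_pos _).le (by positivity)
      have g6 : |w - v| ≤ ((b / n) ^ 3 * C * a ^ 4) * Real.exp (t ^ 2 / 12) := by
        refine w3.trans (le_mul_of_one_le_right (by positivity) g4)
      rw [add_mul]
      linarith
    calc _ ≤ Real.exp (-(t ^ 2 / 2)) * (((b / n) ^ 3 * C ^ 2 * a ^ 8 + (b / n) ^ 3 * C * a ^ 4) *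
          Real.exp (t ^ 2 / 12)) := by gcongr
      _ = ((b / n) ^ 3 * C ^ 2 * a ^ 8 + (b / n) ^ 3 * C * a ^ 4) *
          Real.exp (-(t ^ 2 / 2) + t ^ 2 / 12) := by rw [Real.exp_add]; ring
      _ ≤ _ := by
          gcongr
          nlinarith [sq_nonneg t]
  have fin1 : ‖∏ i ∈ S, charFun ν (θ i * t) - ((Real.exp (-(t ^ 2 / 2)) * Real.exp w : ℝ) : ℂ)‖ ≤
      12 * b ^ 3 * a ^ 5 * (C / n ^ 3) * Real.exp (-(t ^ 2 / 3)) := by
    refine p1.trans ?_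
    gcongr
  have fin2 := (norm_sub_le_norm_sub_add_norm_sub (∏ i ∈ S, charFun ν (θ i * t))
    ((Real.exp (-(t ^ 2 / 2)) * Real.exp w : ℝ) : ℂ) (gh κ (n ^ 2) t : ℂ)).trans (add_le_add fin1 w4)
  refine fin2.trans ?_
  rw [← add_mul]
  apply mul_le_mul_of_nonneg_right _ (Real.exp_pos _).le
  have e9 : 12 * b ^ 3 * a ^ 5 * (C / n ^ 3) = (b / n) ^ 3 * (12 * C) * a ^ 5 := by
    rw [div_pow]; ring
  rw [e9]
  have z0 : 0 ≤ (b / n) ^ 3 := by positivity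
  have z1 : (b / n) ^ 3 * (12 * C) * a ^ 5 + ((b / n) ^ 3 * C ^ 2 * a ^ 8 + (b / n) ^ 3 * C * a ^ 4) ≤
      (b / n) ^ 3 * (12 * C + C ^ 2) * a ^ 5 + ((b / n) ^ 3 * (12 * C + C ^ 2) * a ^ 8 +
      (b / n) ^ 3 * (12 * C + C ^ 2) * a ^ 4) := by
    have c1 : 12 * C ≤ 12 * C + C ^ 2 := by nlinarith [sq_nonneg C]
    have c2 : C ^ 2 ≤ 12 * C + C ^ 2 := by linarith
    have c3 : C ≤ 12 * C + C ^ 2 := by nlinarith [sq_nonneg C]
    gcongr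
  linarith

end Pool.Agent.X88.EW
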