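import Pool.Agent.X88.EW.Core

/-! The weight function and the coefficients. -/

set_option autoImplicit false

namespace Pool.Agent.X88.EW

open MeasureTheory Set Filter Topology
open scoped ContDiff

/-- what is used about the weight -/
structure Good (w : ℝ → ℝ) (W L α γ c : ℝ) : Prop where
  nn : ∀ x, 0 ≤ w x
  up : ∀ x, w x ≤ W
  lip : ∀ x y, |w x - w y| ≤ L * |x - y|
  zero : w 0 = 0
  i1 : ∫ x in (0:ℝ)..1, w x = 1
  i2 : ∫ x in (0:ℝ)..1, w x ^ 2 = 3
  a0 : 0 < α
  ag : α < γ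
  g1 : γ < 1
  c0 : 0 < c
  low : ∀ x ∈ Icc α γ, c ≤ w x
  slope : ∀ x ∈ Icc α γ, ∀ y ∈ Icc α γ, x ≤ y → c * (y - x) ≤ |w y - w x|

theorem lip_cont (f : ℝ → ℝ) (L : ℝ) (hf : ∀ x y, |f x - f y| ≤ L * |x - y|) : Continuous f := by
  have hL : 0 ≤ L := by
    have := hf 1 0
    simp at this
    exact (abs_nonneg _).trans this
  have : LipschitzWith ⟨L, hL⟩ f := by
    apply LipschitzWith.of_dist_le_mul
    intro x y
    rw [Real.dist_eq, Real.dist_eq]
    exact hf x y
  exact this.continuous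

theorem riem (f : ℝ → ℝ) (L : ℝ) (hf : ∀ x y, |f x - f y| ≤ L * |x - y|) (N : ℕ) (hN : 0 < N) :
    |(∑ i ∈ Finset.range N, f ((i : ℝ) / N)) - N * ∫ x in (0:ℝ)..1, f x| ≤ L := by
  have hc := lip_cont f L hf
  have hN' : (0:ℝ) < N := by exact_mod_cast hN
  have h1 : ∫ x in (0:ℝ)..1, f x = ∑ i ∈ Finset.range N, ∫ x in ((i : ℝ) / N)..(((i + 1 : ℕ) : ℝ) / N), f x := by
    have := intervalIntegral.sum_integral_adjacent_intervals (f := f) (μ := volume)
      (a := fun i : ℕ => (i : ℝ) / N) (n := N) (fun k _ => hc.intervalIntegrable _ _)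
    rw [this]
    simp [hN'.ne']
  rw [h1, Finset.mul_sum, ← Finset.sum_sub_distrib]
  refine (Finset.abs_sum_le_sum_abs _ _).trans ?_
  have h2 : ∀ i ∈ Finset.range N, |f ((i : ℝ) / N) - N * ∫ x in ((i : ℝ) / N)..(((i + 1 : ℕ) : ℝ) / N), f x| ≤ L / N := by
    intro i _
    have e0 : ((i + 1 : ℕ) : ℝ) / N - (i : ℝ) / N = 1 / N := by push_cast; field_simp; ring
    have e1 : f ((i : ℝ) / N) = N * ∫ x in ((i : ℝ) / N)..(((i + 1 : ℕ) : ℝ) / N), f ((i : ℝ) / N) := by
      rw [intervalIntegral.integral_const, e0, smul_eq_mul]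
      field_simp
    have e2 : f ((i : ℝ) / N) - N * ∫ x in ((i : ℝ) / N)..(((i + 1 : ℕ) : ℝ) / N), f x =
        N * ∫ x in ((i : ℝ) / N)..(((i + 1 : ℕ) : ℝ) / N), (f ((i : ℝ) / N) - f x) := by
      rw [intervalIntegral.integral_sub (by simp) (hc.intervalIntegrable _ _), mul_sub, ← e1]
    rw [e2, abs_mul, abs_of_pos hN']
    have e3 : |∫ x in ((i : ℝ) / N)..(((i + 1 : ℕ) : ℝ) / N), (f ((i : ℝ) / N) - f x)| ≤ L / N * (1 / N) := by
      rw [← Real.norm_eq_abs]
      have := intervalIntegral.norm_integral_le_of_norm_le_const (a := (i : ℝ) / N)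
        (b := ((i + 1 : ℕ) : ℝ) / N) (f := fun x => f ((i : ℝ) / N) - f x) (C := L / N) ?_
      · rwa [e0, abs_of_pos (by positivity)] at this
      · intro x hx
        rw [uIoc_of_le (by rw [← sub_nonneg, e0]; positivity)] at hx
        rw [Real.norm_eq_abs]
        refine (hf _ _).trans ?_
        have hL : 0 ≤ L := by
          have := hf 1 0
          simp at this
          exact (abs_nonneg _).trans this
        have : |(i : ℝ) / N - x| ≤ 1 / N := by
          rw [abs_le]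
          constructor <;> linarith [hx.1, hx.2]
        calc L * |(i : ℝ) / N - x| ≤ L * (1 / N) := by gcongr
          _ = L / N := by ring
    calc (N : ℝ) * _ ≤ N * (L / N * (1 / N)) := by gcongr
      _ = L / N := by field_simp
  calc _ ≤ ∑ i ∈ Finset.range N, L / N := Finset.sum_le_sum h2
    _ = L := by
      rw [Finset.sum_const, Finset.card_range, nsmul_eq_mul]
      field_simp

/-- normalising sum -/
noncomputable def AN (w : ℝ → ℝ) (N : ℕ) : ℝ := ∑ n ∈ Finset.range N, w ((n : ℝ) / N)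

/-- the coefficients -/
noncomputable def th (w : ℝ → ℝ) (N n : ℕ) : ℝ := Real.sqrt (w ((n : ℝ) / N)) / Real.sqrt (AN w N)

theorem range_Ico (g : ℕ → ℝ) (h0 : g 0 = 0) (N : ℕ) (hN : 1 ≤ N) :
    ∑ i ∈ Finset.Ico 1 N, g i = ∑ i ∈ Finset.range N, g i := by
  rw [Finset.range_eq_Ico, ← Finset.sum_Ico_consecutive g (Nat.zero_le 1) hN]
  simp [h0]

theorem th_sq (w : ℝ → ℝ) (hnn : ∀ x, 0 ≤ w x) (h0 : w 0 = 0) (N : ℕ) (hN : 1 ≤ N) (hA : 0 < AN w N) :
    ∑ i ∈ Finset.Ico 1 N, th w N i ^ 2 = 1 := by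
  have e : ∀ i : ℕ, th w N i ^ 2 = w ((i : ℝ) / N) / AN w N := by
    intro i
    unfold th
    rw [div_pow, Real.sq_sqrt (hnn _), Real.sq_sqrt hA.le]
  simp_rw [e]
  rw [range_Ico (fun i => w ((i : ℝ) / N) / AN w N) (by simp [h0]) N hN, ← Finset.sum_div]
  exact div_self hA.ne'

theorem coeffs (w : ℝ → ℝ) (W L α γ c : ℝ) (hg : Good w W L α γ c) :
    ∃ C CM c1 c2 η : ℝ, ∃ N0 : ℕ, 0 ≤ C ∧ 0 ≤ CM ∧ 0 < c1 ∧ 0 < c2 ∧ 0 < η ∧ CM ≤ c2 * η ∧ 2 ≤ N0 ∧
      ∀ N : ℕ, N0 ≤ N → 0 < AN w N ∧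
        ∑ i ∈ Finset.Ico 1 N, |th w N i| ^ 5 ≤ C / Real.sqrt N ^ 3 ∧
        |(∑ i ∈ Finset.Ico 1 N, th w N i ^ 4) - 3 / Real.sqrt N ^ 2| ≤ C / Real.sqrt N ^ 4 ∧
        ∑ i ∈ Finset.Ico 1 N, th w N i ^ 4 ≤ C / Real.sqrt N ^ 2 ∧
        (∀ i ∈ Finset.Ico 1 N, |th w N i| ≤ CM / Real.sqrt N) ∧
        Block (Finset.Ico 1 N) (th w N) (Real.sqrt N) c1 c2 η := by
  obtain ⟨hnn, hup, hlip, h0, hi1, hi2, ha0, hag, hg1, hc0, hlow, hslope⟩ := hg
  have hL : 0 ≤ L := by
    have := hlip 1 0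
    simp at this
    exact (abs_nonneg _).trans this
  have hγ0 : 0 < γ := by linarith
  have hW : 0 < W := lt_of_lt_of_le hc0 ((hlow α ⟨le_rfl, hag.le⟩).trans (hup α))
  set CM : ℝ := Real.sqrt (2 * W) with hCM
  have hCM0 : 0 < CM := Real.sqrt_pos.mpr (by positivity)
  set η : ℝ := (γ - α) / 4 with hη
  have hη0 : 0 < η := by rw [hη]; linarith
  set c1 : ℝ := c / (2 * CM) with hc1
  set c2 : ℝ := L / Real.sqrt (2 * c) + CM / η with hc2
  have hc20 : 0 < c2 := by positivity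
  set C : ℝ := CM ^ 3 + CM ^ 2 + 4 * (2 * W * L + 6 * L + 3 * L ^ 2) with hC
  have hC0 : 0 ≤ C := by positivity
  refine ⟨C, CM, c1, c2, η, max (⌈2 * L⌉₊ + 2) ⌈2 / η⌉₊, hC0, hCM0.le, by positivity, hc20, hη0, ?_, ?_, ?_⟩
  · rw [hc2, add_mul, div_mul_cancel₀ _ hη0.ne']
    have : 0 ≤ L / Real.sqrt (2 * c) * η := by positivity
    linarith
  · exact le_trans (by omega) (le_max_left _ _)
  intro N hN
  have hN1 : ⌈2 * L⌉₊ + 2 ≤ N := (le_max_left _ _).trans hN
  have hN2 : 2 * L ≤ N := by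
    have h1 := Nat.le_ceil (2 * L)
    have h2 : (⌈2 * L⌉₊ : ℝ) ≤ N := by exact_mod_cast (by omega : ⌈2 * L⌉₊ ≤ N)
    linarith
  have hN3 : 2 / η ≤ N := by
    have h1 := Nat.le_ceil (2 / η)
    have h2 : (⌈2 / η⌉₊ : ℝ) ≤ N := by exact_mod_cast (le_max_right _ _).trans hN
    linarith
  have hN4 : 1 ≤ N := by omega
  have hNp : (1:ℝ) ≤ N := by exact_mod_cast hN4
  have hN0 : (0:ℝ) < N := by linarith
  set n : ℝ := Real.sqrt N with hn
  have hn2 : n ^ 2 = N := Real.sq_sqrt hN0.le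
  have hn0 : 0 < n := Real.sqrt_pos.mpr hN0
  -- normalising sum
  have hA1 := riem w L hlip N (by omega)
  rw [hi1, mul_one] at hA1
  have hA1' : |AN w N - N| ≤ L := hA1
  rw [abs_le] at hA1'
  have hAlo : (N:ℝ) / 2 ≤ AN w N := by linarith [hA1'.1]
  have hAhi : AN w N ≤ 2 * N := by linarith [hA1'.2]
  have hA0 : 0 < AN w N := by linarith
  have hsqlo : n / Real.sqrt 2 ≤ Real.sqrt (AN w N) := by
    rw [hn, ← Real.sqrt_div hN0.le]
    exact Real.sqrt_le_sqrt hAlo
  have hsqhi : Real.sqrt (AN w N) ≤ Real.sqrt 2 * n := by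
    rw [hn, ← Real.sqrt_mul (by norm_num)]
    exact Real.sqrt_le_sqrt hAhi
  have hsA : 0 < Real.sqrt (AN w N) := Real.sqrt_pos.mpr hA0
  have hs2 : 0 < Real.sqrt 2 := by positivity
  have hth0 : ∀ i, 0 ≤ th w N i := fun i => by unfold th; positivity
  have hthM : ∀ i, th w N i ≤ CM / n := by
    intro i
    unfold th
    rw [div_le_div_iff₀ hsA hn0]
    have h1 : Real.sqrt (w ((i : ℝ) / N)) ≤ Real.sqrt W := Real.sqrt_le_sqrt (hup _)
    have h2 : CM = Real.sqrt 2 * Real.sqrt W := by rw [hCM, Real.sqrt_mul (by norm_num)]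
    rw [h2]
    have h3 : n ≤ Real.sqrt 2 * Real.sqrt (AN w N) := by
      rw [div_le_iff₀ hs2] at hsqlo
      linarith
    calc Real.sqrt (w ((i : ℝ) / N)) * n ≤ Real.sqrt W * (Real.sqrt 2 * Real.sqrt (AN w N)) := by gcongr
      _ = _ := by ring
  have hsq1 := th_sq w hnn h0 N hN4 hA0
  refine ⟨hA0, ?_, ?_, ?_, ?_, ?_⟩
  · calc ∑ i ∈ Finset.Ico 1 N, |th w N i| ^ 5 ≤ ∑ i ∈ Finset.Ico 1 N, (CM / n) ^ 3 * th w N i ^ 2 := by
          apply Finset.sum_le_sum
          intro i _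
          rw [abs_of_nonneg (hth0 i)]
          calc th w N i ^ 5 = th w N i ^ 3 * th w N i ^ 2 := by ring
            _ ≤ (CM / n) ^ 3 * th w N i ^ 2 := by
              have := hth0 i
              have := hthM i
              gcongr
      _ = CM ^ 3 / n ^ 3 := by rw [← Finset.mul_sum, hsq1, mul_one, div_pow]
      _ ≤ C / n ^ 3 := by
          apply div_le_div_of_nonneg_right _ (by positivity)
          rw [hC]
          have : 0 ≤ CM ^ 2 + 4 * (2 * W * L + 6 * L + 3 * L ^ 2) := by positivity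
          linarith
  · have hB1 := riem (fun x => w x ^ 2) (2 * W * L) (by
      intro x y
      have e : w x ^ 2 - w y ^ 2 = (w x + w y) * (w x - w y) := by ring
      show |w x ^ 2 - w y ^ 2| ≤ _
      rw [e, abs_mul, abs_of_nonneg (add_nonneg (hnn x) (hnn y))]
      calc (w x + w y) * |w x - w y| ≤ (W + W) * (L * |x - y|) := by
            have := hup x
            have := hup y
            have := hlip x y
            have := hnn x
            have := hnn y
            gcongr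
        _ = _ := by ring) N (by omega)
    rw [hi2] at hB1
    set B := ∑ i ∈ Finset.range N, w ((i : ℝ) / N) ^ 2 with hB
    have e4 : ∑ i ∈ Finset.Ico 1 N, th w N i ^ 4 = B / AN w N ^ 2 := by
      have e : ∀ i : ℕ, th w N i ^ 4 = w ((i : ℝ) / N) ^ 2 / AN w N ^ 2 := by
        intro i
        unfold th
        rw [div_pow, (by norm_num : 4 = 2 * 2), pow_mul, pow_mul, Real.sq_sqrt (hnn _), Real.sq_sqrt hA0.le]
      simp_rw [e]
      rw [range_Ico (fun i => w ((i : ℝ) / N) ^ 2 / AN w N ^ 2) (by simp [h0]) N hN4, ← Finset.sum_div]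
    rw [e4]
    have en4 : n ^ 4 = (N:ℝ) ^ 2 := by rw [← hn2]; ring
    rw [hn2, en4]
    set A := AN w N with hA
    have e5 : B / A ^ 2 - 3 / N = (N * (B - N * 3) - 6 * N * (A - N) - 3 * (A - N) ^ 2) / (N * A ^ 2) := by
      field_simp
      ring
    rw [e5, abs_div, abs_of_pos (by positivity : 0 < (N:ℝ) * A ^ 2)]
    have hA1'' : |A - N| ≤ L := abs_le.mpr hA1'
    have e6 : |N * (B - N * 3) - 6 * N * (A - N) - 3 * (A - N) ^ 2| ≤ N * (2 * W * L + 6 * L + 3 * L ^ 2) := by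
      have t1 : |(N:ℝ) * (B - N * 3)| ≤ N * (2 * W * L) := by
        rw [abs_mul, abs_of_pos hN0]; gcongr
      have t2 : |6 * (N:ℝ) * (A - N)| ≤ 6 * N * L := by
        rw [abs_mul, abs_of_pos (by positivity : 0 < 6 * (N:ℝ))]; gcongr
      have t3 : |3 * (A - N) ^ 2| ≤ 3 * L ^ 2 := by
        rw [abs_mul, abs_pow]
        norm_num
        rw [← sq_abs]
        gcongr
      have t4 : 3 * L ^ 2 ≤ N * (3 * L ^ 2) := by nlinarith [sq_nonneg L]
      have t5 := abs_sub ((N:ℝ) * (B - N * 3) - 6 * N * (A - N)) (3 * (A - N) ^ 2)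
      have t6 := abs_sub ((N:ℝ) * (B - N * 3)) (6 * N * (A - N))
      nlinarith
    rw [div_le_div_iff₀ (by positivity) (by positivity)]
    have e7 : (N:ℝ) ^ 2 ≤ 4 * A ^ 2 := by nlinarith
    have e8 : 0 ≤ 2 * W * L + 6 * L + 3 * L ^ 2 := by positivity
    have e9 : 4 * (2 * W * L + 6 * L + 3 * L ^ 2) ≤ C := by
      rw [hC]
      have : 0 ≤ CM ^ 3 + CM ^ 2 := by positivity
      linarith
    calc |N * (B - N * 3) - 6 * N * (A - N) - 3 * (A - N) ^ 2| * (N:ℝ) ^ 2
        ≤ (N * (2 * W * L + 6 * L + 3 * L ^ 2)) * (4 * A ^ 2) := by gcongr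
      _ = 4 * (2 * W * L + 6 * L + 3 * L ^ 2) * (N * A ^ 2) := by ring
      _ ≤ C * (N * A ^ 2) := by gcongr
  · calc ∑ i ∈ Finset.Ico 1 N, th w N i ^ 4 ≤ ∑ i ∈ Finset.Ico 1 N, (CM / n) ^ 2 * th w N i ^ 2 := by
          apply Finset.sum_le_sum
          intro i _
          calc th w N i ^ 4 = th w N i ^ 2 * th w N i ^ 2 := by ring
            _ ≤ (CM / n) ^ 2 * th w N i ^ 2 := by
              have := hth0 i
              have := hthM i
              gcongr
      _ = CM ^ 2 / n ^ 2 := by rw [← Finset.mul_sum, hsq1, mul_one, div_pow]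
      _ ≤ C / n ^ 2 := by
          apply div_le_div_of_nonneg_right _ (by positivity)
          rw [hC]
          have : 0 ≤ CM ^ 3 + 4 * (2 * W * L + 6 * L + 3 * L ^ 2) := by positivity
          linarith
  · intro i _
    rw [abs_of_nonneg (hth0 i)]
    exact hthM i
  · refine ⟨⌈α * N⌉₊, ⌊(α + γ) / 2 * N⌋₊, ?_, ?_⟩
    · rw [hn2]
      have h1 : (⌈α * N⌉₊ : ℝ) < α * N + 1 := Nat.ceil_lt_add_one (by positivity)
      have h2 : (α + γ) / 2 * N < ⌊(α + γ) / 2 * N⌋₊ + 1 := Nat.lt_floor_add_one _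
      rw [div_le_iff₀ hη0] at hN3
      rw [hη] at hN3 ⊢
      nlinarith
    · intro l hl k hk
      rw [Finset.mem_Ico] at hk
      rw [hn2] at hl
      have hk1 : α * N ≤ k := Nat.ceil_le.mp hk.1
      have hk2 : (k:ℝ) ≤ (α + γ) / 2 * N := by
        have h1 : (k:ℝ) ≤ ⌊(α + γ) / 2 * N⌋₊ := by exact_mod_cast hk.2.le
        exact h1.trans (Nat.floor_le (by positivity))
      have hkl : ((k + l : ℕ) : ℝ) ≤ γ * N := by
        push_cast
        rw [hη] at hl
        nlinarith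
      have hk3 : 1 ≤ k := by
        have : (0:ℝ) < k := lt_of_lt_of_le (by positivity) hk1
        exact_mod_cast this
      have hkl2 : k + l < N := by
        have : ((k + l : ℕ) : ℝ) < N := by nlinarith
        exact_mod_cast this
      refine ⟨Finset.mem_Ico.mpr ⟨hk3, by omega⟩, Finset.mem_Ico.mpr ⟨by omega, hkl2⟩, ?_⟩
      set x : ℝ := (k : ℝ) / N with hx
      set y : ℝ := ((k + l : ℕ) : ℝ) / N with hy
      have hyx : y - x = l / N := by rw [hy, hx]; push_cast; field_simp; ring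
      have hxm : x ∈ Icc α γ := by
        constructor
        · rw [hx, le_div_iff₀ hN0]; exact hk1
        · rw [hx, div_le_iff₀ hN0]
          have : (k:ℝ) ≤ ((k + l : ℕ) : ℝ) := by push_cast; linarith [Nat.cast_nonneg (α := ℝ) l]
          linarith
      have hym : y ∈ Icc α γ := by
        constructor
        · have : 0 ≤ (l:ℝ) / N := by positivity
          linarith [hxm.1]
        · rw [hy, div_le_iff₀ hN0]; exact hkl
      have hxy : x ≤ y := by
        have : 0 ≤ (l:ℝ) / N := by positivity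
        linarith
      have hwx := hlow x hxm
      have hwy := hlow y hym
      have hsx : Real.sqrt c ≤ Real.sqrt (w x) := Real.sqrt_le_sqrt hwx
      have hsy : Real.sqrt c ≤ Real.sqrt (w y) := Real.sqrt_le_sqrt hwy
      have hsx2 : Real.sqrt (w x) ≤ Real.sqrt W := Real.sqrt_le_sqrt (hup x)
      have hsy2 : Real.sqrt (w y) ≤ Real.sqrt W := Real.sqrt_le_sqrt (hup y)
      have hsc : 0 < Real.sqrt c := Real.sqrt_pos.mpr hc0
      have hsW : 0 < Real.sqrt W := Real.sqrt_pos.mpr hW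
      have hxp : 0 < Real.sqrt (w x) := lt_of_lt_of_le hsc hsx
      have hyp : 0 < Real.sqrt (w y) := lt_of_lt_of_le hsc hsy
      have hsum : 0 < Real.sqrt (w y) + Real.sqrt (w x) := add_pos hyp hxp
      have hD : |Real.sqrt (w y) - Real.sqrt (w x)| = |w y - w x| / (Real.sqrt (w y) + Real.sqrt (w x)) := by
        rw [eq_div_iff hsum.ne']
        have e : w y - w x = (Real.sqrt (w y) - Real.sqrt (w x)) * (Real.sqrt (w y) + Real.sqrt (w x)) := by
          have h1 := Real.sq_sqrt (hnn y)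
          have h2 := Real.sq_sqrt (hnn x)
          nlinarith
        rw [e, abs_mul, abs_of_pos hsum]
      have hth : |th w N (k + l) - th w N k| = |Real.sqrt (w y) - Real.sqrt (w x)| / Real.sqrt (AN w N) := by
        unfold th
        rw [← hy, ← hx, ← sub_div, abs_div, abs_of_pos hsA]
      rw [hth, hD]
      have hs1 := hslope x hxm y hym hxy
      have hs2' := hlip y x
      rw [hyx] at hs1
      rw [abs_of_nonneg (by linarith : 0 ≤ y - x), hyx] at hs2'
      have en3 : n ^ 3 = N * n := by rw [← hn2]; ring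
      have hl0 : (0:ℝ) ≤ l := Nat.cast_nonneg l
      constructor
      · rw [div_div, div_le_div_iff₀ (by positivity) (mul_pos hsum hsA)]
        have q1 : (Real.sqrt (w y) + Real.sqrt (w x)) * Real.sqrt (AN w N) ≤ 2 * CM * n := by
          have h2 : CM = Real.sqrt 2 * Real.sqrt W := by rw [hCM, Real.sqrt_mul (by norm_num)]
          rw [h2]
          calc _ ≤ (Real.sqrt W + Real.sqrt W) * (Real.sqrt 2 * n) := by gcongr
            _ = _ := by ring
        calc c1 * l * ((Real.sqrt (w y) + Real.sqrt (w x)) * Real.sqrt (AN w N))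
            ≤ c1 * l * (2 * CM * n) := by gcongr
          _ = c * (l / N) * n ^ 3 := by
              rw [hc1, en3]
              field_simp
          _ ≤ |w y - w x| * n ^ 3 := by gcongr
      · rw [div_div, div_le_div_iff₀ (mul_pos hsum hsA) (by positivity)]
        have q1 : Real.sqrt (2 * c) * n ≤ (Real.sqrt (w y) + Real.sqrt (w x)) * Real.sqrt (AN w N) := by
          rw [Real.sqrt_mul (by norm_num)]
          have h22 : Real.sqrt 2 * Real.sqrt 2 = 2 := Real.mul_self_sqrt (by norm_num)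
          calc Real.sqrt 2 * Real.sqrt c * n = (Real.sqrt c + Real.sqrt c) * (n / Real.sqrt 2) := by
                field_simp
                nlinarith
            _ ≤ _ := by gcongr
        have q2 : L / Real.sqrt (2 * c) ≤ c2 := by
          rw [hc2]
          have : 0 ≤ CM / η := by positivity
          linarith
        have hs2c : 0 < Real.sqrt (2 * c) := Real.sqrt_pos.mpr (by positivity)
        calc |w y - w x| * n ^ 3 ≤ L * (l / N) * n ^ 3 := by gcongr
          _ = L / Real.sqrt (2 * c) * l * (Real.sqrt (2 * c) * n) := by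
              rw [en3]
              field_simp
          _ ≤ c2 * l * ((Real.sqrt (w y) + Real.sqrt (w x)) * Real.sqrt (AN w N)) := by gcongr

end Pool.Agent.X88.EW
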